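import Pool.Agent.Helper42.PB.Goals

/-!
# Project B: the condition `NrmInd` (independence on the norms from `M₂`)

It is the hypothesis on the functionals `h_j` which `V_SM` needs. If `M₂ = M₁` it holds for every `TauF` (the
index `[M₁ : M]` is prime to `p`). If `χ₀ ≠ 1` (`P ≠ X - 1`) it holds for every `TauF` (see `V_ALN`). If `χ₀ = 1`
and `J ≠ K` it is a condition.
-/

set_option autoImplicit false

namespace Pool.Agent.Helper76.PB

open NumberField Polynomial Module IsDedekindDomain
open Pool.Agent.Helper51.RP Pool.Agent.Helper42.RD Pool.Agent.Helper42.PP Pool.Agent.Helper42.PP1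
open Pool.Agent.Helper42.PB

/-- A combination of the `h_j` which vanishes at the `u_i` and at the norms from `M₂` is trivial. -/
def NrmInd {p : ℕ} [Fact p.Prime] {K M K₁ M₁ : Type} [Field K] [NumberField K] [Field M]
    [NumberField M] [Field K₁] [NumberField K₁] [Field M₁] [NumberField M₁] [Algebra K M]
    [Algebra K K₁] [Algebra K M₁] [Algebra M M₁] [Algebra K₁ M₁] {ε : K₁} {δ : M ≃ₐ[K] M}
    {P : (ZMod p)[X]} {B : Base p K M K₁ M₁ ε δ P} {n : ℕ} (E : TauF n B) (M₂ : Type)
    [Field M₂] [NumberField M₂] [Algebra M M₂] : Prop :=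
  ∀ β : Fin n → AdjoinRoot P, (∀ i, ∑ j, β j * E.h j (B.u i) = 0) →
    (∀ x : M₂ˣ, ∑ j, β j * E.h j (nrm M M₂ x) = 0) → β = 0

end Pool.Agent.Helper76.PB
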