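import Pool.Agent.Helper76.PB.GoalsF
import Pool.Agent.Helper11.PB.Goals2

/-!
# Project B: the invariant line, `NrmInd` for `χ₀ ≠ 1`, and the fields `sm`, `kum` over `M₂`

Every statement is a `def ... : Prop` with its complete proof in the docstring.
-/

set_option autoImplicit false

namespace Pool.Agent.Helper76.PB

open NumberField Polynomial Module IsDedekindDomain
open Pool.Agent.Helper51.RP Pool.Agent.Helper42.RD Pool.Agent.Helper42.PP Pool.Agent.Helper42.PP1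
open Pool.Agent.Helper42.PB Pool.Agent.Helper76.PP
open Pool.Agent.Helper38.RS (pz)

/-- **X_INJ** (enlarging `Z`). The divisors of `F` are principal outside the finite set `Z`, `w₀ ∉ Z`. There is a
finite set `Z' ⊇ Z`, `w₀ ∉ Z'`, with `InjZ p F Z'`.

PROOF (from `RSP.SP_KUM`, `RS.S_PSM`, `LE.L_SUN`). Let `Y ⊆ Z.unit F` be a finite set of representatives of the
`Z`-units modulo `p`-th powers (`L_SUN`: a maximal finite set of incongruent `Z`-units exists). For every `u ∈ Y`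
which is not a `p`-th power there are infinitely many primes `v ∤ p` with `¬ LocPow p v u` (`SP_KUM`, `S_PSM`: they
have density at least `1 - 1/p`); choose one, `v_u ∉ Z`, `v_u ≠ w₀`, and let `Z'` be `Z` with the `v_u`. Let `t` be a
`Z'`-unit with `LocPow p v t` for all `v ∈ Z'`, `v ∤ p`. For `v ∈ Z' ∖ Z`, `p` divides `ord_v(t)`; let `x ∈ Fˣ`,
`ord_v(x) = ord_v(t)/p` for `v ∈ Z' ∖ Z`, `ord_v(x) = 0` for the other `v ∉ Z`. `t/x^p` is a `Z`-unit, so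
`t = u z^p` with `u ∈ Y`, `z ∈ Fˣ`. If `u` is not a `p`-th power: `LocPow p v_u t` (`v_u ∈ Z'`), so
`LocPow p v_u u`, contradiction. -/
def X_INJ : Prop :=
  ∀ (p : ℕ) [Fact p.Prime] (F : Type) [Field F] [NumberField F] (ε : F), IsPrimitiveRoot ε p →
  ∀ Z : Set (HeightOneSpectrum (𝓞 F)), Z.Finite → abP p F ⊆ Z → PrZ F Z → ∀ w₀ ∉ Z,
  ∃ Z' : Set (HeightOneSpectrum (𝓞 F)), Z'.Finite ∧ Z ⊆ Z' ∧ w₀ ∉ Z' ∧ InjZ p F Z'

/-- **X_LIF** (`X_LIN` without `InjZ`).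

PROOF (from `X_LIN`, `X_INJ`). Let `w₀ ∈ SplZ E₁ Z` and `Z'` from `X_INJ`. For `v ∉ Z` let `z_v ∈ Fˣ` be an element
with divisor `v` outside `Z`. Put `f'(x) = f(x) - ∑_(v ∈ Z' ∖ Z) ord_v(x) f(z_v)`, a homomorphism.
*`Kil p Z' f'`*: if `x` is a `Z'`-unit then `x` is a `Z`-unit times `∏_(v ∈ Z' ∖ Z) z_v^(ord_v x)`, so `f'(x) = 0`;
if `LocS p Z' x` then `LocS p Z x` and `p ∣ ord_v(x)` for `v ∈ Z' ∖ Z` (`v ∤ p`). *Norms*: let `v ∈ Z' ∖ Z`, `W` above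
`v` in `E₂`, `y` with divisor `W` outside `upZ E₂ Z`; `N(y)` has the divisor `f_W v` outside `Z` (`f_W` the residue
degree), so it is `z_v^(f_W)` times a `Z`-unit and `f_W f(z_v) = f(N y) = 0`. And `ord_v(N(x)) = ∑_(W ∣ v) f_W
ord_W(x)` is a multiple of `f_W` (the same for all `W ∣ v`); so `ord_v(N x) f(z_v) = 0`, `f'(N x) = f(N x) = 0`.
The other hypotheses of `X_LIN` hold for `Z'` (`PrZ`, `UnrZ` are monotone, and `PrZ E₂ (upZ E₂ Z')`). So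
`Van Z' f' w₀`. Let `x` have the divisor `w₀` outside `Z`: then `x` has the divisor `w₀` outside `Z'` and
`ord_v(x) = 0` for `v ∈ Z' ∖ Z`: `f(x) = f'(x) = 0`. -/
def X_LIF : Prop :=
  ∀ (p : ℕ) [Fact p.Prime] (F E₁ E₂ : Type) [Field F] [NumberField F] [IsTotallyComplex F]
    [Field E₁] [NumberField E₁] [Field E₂] [NumberField E₂] [Algebra F E₁] [Algebra F E₂]
    [Algebra E₁ E₂] [IsScalarTower F E₁ E₂] [IsGalois F E₁] [IsGalois F E₂]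
    [IsCyclic (E₂ ≃ₐ[F] E₂)] (ε : F),
    IsPrimitiveRoot ε p → finrank F E₁ = p → (∃ l : ℕ, finrank F E₂ = p ^ l) →
  ∀ Z : Set (HeightOneSpectrum (𝓞 F)), Z.Finite → abP p F ⊆ Z → UnrZ F E₂ Z → PrZ F Z →
    PrZ E₂ (upZ E₂ Z) →
    (∀ W : HeightOneSpectrum (𝓞 E₂), W.valuation E₂ (p : E₂) < 1 → FreeP F W) →
  ∀ f : Fˣ → ZMod p, Kil p Z f → (∀ y : E₂ˣ, f (nrm F E₂ y) = 0) →
  ∀ w ∈ SplZ E₁ Z, Van Z f w

/-- **V_LINE** (the functionals on `M₁` which kill `LocS`, the `S`-units and the norms from `M₂` are multiples of one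
of them, which is invariant under `Gal(M₁/K)`).

PROOF (from `X_LIF`, `X_DN`, `X_FI`, `P_UPR`). Let `Z = up M₁ S` (`= upZ`, `B.S`), `ε₁` the image of `ε` in `M₁`.
*Group theory.* `[M₁ : K]` is prime to `p`, `[J : K] = p^l`, `Gal(M₂/M₁) → Gal(J/K)` is injective (`lin₂`), and
bijective (`p^l ∣ [M₂ : K] = [M₂ : M₁][M₁ : K]`). If `l = 0` then `M₁ = M₂` (degree `1`), `f(x) = f(N x) = 0`: take
`s = 0`. Let `l ≥ 1`, `J₁ ⊆ J` the subextension of degree `p` (cyclic), `E₁ = M₁ J₁ ⊆ M₂` (as intermediate fields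
of `M₂/K`, resp. `M₂/M₁`): the fixed field of the subgroup of order `p^(l-1)` of `Gal(M₂/M₁)`, `[E₁ : M₁] = p`, Galois
over `M₁` and over `K`. `UnrZ M₁ M₂ Z` by `BaseB.unr` and `Base.unr` (for `W ∣ w ∣ v ∉ S` in `M₂, M₁, K`: `v` is
unramified in `M₂`, so is `w`), and the same for `E₁`, `J₁`; the primes above `p` of `M₂` are free over `M₁`
(`splJ`: an element of the decomposition group over `M₁` is trivial on `J`, then it is `1` by `lin₂`), and those of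
`J₁` over `K` (restriction of `J`). Principality outside `S`: `B.prMK`, `BaseB.pr` for `⊥` (`K`), `J₁`, `E₁`, `⊤` (`M₂`),
transported by the isomorphisms.
*Uniqueness.* Let `V` be the group of the `f` as in the statement. By `X_LIF` all `f ∈ V` vanish at the
`w ∈ SplZ E₁ Z`. By `X_DN` (`E₁/M₁`) two elements of `V` are proportional; more precisely any `f'` with `Kil p Z f'`
vanishing at `SplZ E₁ Z`, `f' ≠ 0`: `f = c f'` for all `f ∈ V`.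
*Case `p = 2`.* If `V = 0` take `s = 0`, otherwise `V = {0, s}`; `V` is stable under `f ↦ f ∘ g`, `g ∈ Gal(M₁/K)`
(`Z` is stable, and `g(N y) = N(g̃ y)` for `g̃` in `Gal(M₂/K)` above `g`): so `s ∘ g = s` as `s ∘ g ≠ 0`.
*Case `p` odd.* `X_FI` for `J₁/K` and `S` gives `σ₀ : Kˣ → F_p`, `σ₀ ≠ 0`. Let `s = σ₀ ∘ N_(M₁/K)`. `Kil p Z s`: if
`LocS p Z x` then `LocPow p v (N x)` for `v ∈ S`, `v ∤ p` (`N(x) N(y)^p`, `x y^p ≡ 1` modulo all the primes above `v`);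
norms of `Z`-units are `S`-units. `s ∘ g = s` since `N(g x) = N(x)`. `s ≠ 0`: `s(x) = [M₁ : K] σ₀(x)` for `x ∈ K`.
`s` vanishes at `w ∈ SplZ E₁ Z`: let `W` be free above `w` in `E₁`, `y ∈ E₁ˣ` with divisor `W` outside `upZ E₁ Z`;
`N_(E₁/M₁)(y)` has the divisor `w` outside `Z`, and `s(N_(E₁/M₁) y) = σ₀(N_(J₁/K) N_(E₁/J₁) y) = 0`. So `f = c s`
for all `f ∈ V`. -/
def V_LINE : Prop :=
  ∀ (p : ℕ) [Fact p.Prime] (K M K₁ M₁ J M₂ : Type) [Field K] [NumberField K] [Field M]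
    [NumberField M] [Field K₁] [NumberField K₁] [Field M₁] [NumberField M₁] [Field J]
    [NumberField J] [Field M₂] [NumberField M₂] [IsTotallyComplex M₁] [Algebra K M] [Algebra K K₁]
    [Algebra K M₁] [Algebra M M₁] [Algebra K₁ M₁] [Algebra K J] [Algebra K M₂] [Algebra M M₂]
    [Algebra K₁ M₂] [Algebra M₁ M₂] [Algebra J M₂] (ε : K₁) (δ : M ≃ₐ[K] M) (P : (ZMod p)[X])
    (a₀ : M₂ˣ), SitBs p K M K₁ M₁ J M₂ ε δ P a₀ →
  ∀ (B : Base p K M K₁ M₁ ε δ P) (_ : BaseB B a₀),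
  ∃ s : M₁ˣ → ZMod p, Kil p (up M₁ B.S) s ∧ (∀ (g : M₁ ≃ₐ[K] M₁) (x : M₁ˣ), s (act g x) = s x) ∧
    ∀ f : M₁ˣ → ZMod p, Kil p (up M₁ B.S) f → (∀ y : M₂ˣ, f (nrm M₁ M₂ y) = 0) →
      ∃ c : ZMod p, ∀ x, f x = c * s x

/-- **V_ALN** (helper11's `M_ALN`).

PROOF (from `V_LINE`, `W_NRM`). Let `β` be as in `NrmInd`, `f₀ = ∑ β_j h_j`, a `P`-functional on `M` which kills `LocS`
(`hL`) and the `S`-units (`til f₀ = f₀` since `f₀(u_i) = 0`, `W_NRM`), with `f₀ ∘ N_(M₂/M) = 0`. For `tr ≠ 0`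
and `c ∈ κ` let `f(x) = tr(c f₀(N_(M₁/M) x))` on `M₁`: `Kil p (up M₁ S) f` (norms of `LocS`, of `S`-units: `B_NOR`), and
`f ∘ N_(M₂/M₁) = 0`. So `f = c' s`, invariant under `Gal(M₁/K)`. Let `g ∈ Gal(M₁/K)` be an extension of `δ`:
`N(g x) = δ(N x)`, so `tr(c (ξ - 1) f₀(N x)) = 0` for all `c`, `x`. As `tr ≠ 0` and `κ` is a field,
`(ξ - 1) f₀(N x) = 0`; `ξ ≠ 1` since `P ≠ X - 1` is irreducible and monic up to a unit (if `ξ = 1` then `P ∣ X - 1`,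
and `P ∣ X^m - 1`, ... `P` is associated to `X - 1`; in `SitW` `P` need not be monic: then replace the hypothesis by
`AdjoinRoot.root P ≠ 1`, see `V_ALN'`). So `f₀(N_(M₁/M) x) = 0`, for `x ∈ M`: `[M₁ : M] f₀(x) = 0`, `f₀ = 0` and
`β = 0` by `hI`. -/
def V_ALN' : Prop :=
  ∀ (p : ℕ) [Fact p.Prime] (K M K₁ M₁ J M₂ : Type) [Field K] [NumberField K] [Field M]
    [NumberField M] [Field K₁] [NumberField K₁] [Field M₁] [NumberField M₁] [Field J]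
    [NumberField J] [Field M₂] [NumberField M₂] [IsTotallyComplex M₁] [Algebra K M] [Algebra K K₁]
    [Algebra K M₁] [Algebra M M₁] [Algebra K₁ M₁] [Algebra K J] [Algebra K M₂] [Algebra M M₂]
    [Algebra K₁ M₂] [Algebra M₁ M₂] [Algebra J M₂] (ε : K₁) (δ : M ≃ₐ[K] M) (P : (ZMod p)[X])
    (a₀ : M₂ˣ), SitBs p K M K₁ M₁ J M₂ ε δ P a₀ → AdjoinRoot.root P ≠ 1 →
  ∀ (B : Base p K M K₁ M₁ ε δ P) (_ : BaseB B a₀) (n : ℕ) (E : TauF n B), NrmInd E M₂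

/-- **V_SM2F** (the functional of `sm`, over `M₂`; compare `V_SMF`, `B_SMF`).

PROOF (from `V_SMF`, `B_CHR`, `B_IDN`, `B_KAP`, `B_CRT`, `B_NOR`, `W_LOG`, `W_NRM`, `P_UPR`). `Spl M₂ S ⊆ Vis`: if `W` is
free above `v` in `M₂`, the prime of `M₁` below `W` is free (every element of its decomposition group lifts to
the decomposition group of `W`, by transitivity above it; or by `e f` multiplicative). Let `f = fSF B E β D y`,
`F(x) = tr f(N_(M₂/M) x)` on `M₂`. `f` is a `P`-functional which kills the `S`-units, and `f(x) = 0` for `x ∈ Mˣ`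
with `LocS` at `S` and `≡ 1` modulo the primes above `D` (proof of `B_SMF`). *`Psi`*: `B_CHR` for `M₂` (divisors of
`M₂` are principal outside `up M₂ S` by `BaseB.pr ⊤`): norms of `S`-units are `S`-units and for
`α ≡ 1 mod p³ ∏_S ∏_D` the norm `N α` is `≡ 1` modulo the same ideal of `M` (`B_NOR` (1), (3) for `M₂/M`).
*Nontriviality.* If `D = ∅` then `β ≠ 0`, and by `NrmInd` there is `x ∈ M₂ˣ` with `f(N x) ≠ 0`. If `D` is not empty
let `v₁ ∈ D`, `W₀` a prime of `M₂` above `w v₁` (`B.w v₁`), it is free over `K` (`v₁ ∈ Spl M₂ S`, all the primes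
above `v₁` are conjugate), `c` from `W_LOG` (2), `α₀ ∈ 𝓞_(M₂)` from `B_CRT` (`F = M₂`, `D ∖ {v₁}`, `W₀`, `c`). Let
`x = N_(M₂/M)(α₀)`: `x ≡ 1 mod p³ ∏_S ∏_(D ∖ v₁)`, and modulo the primes above `v₁`: for `g ∈ Gal(M₂/M)`, `g α₀ ≡ c`
at `W₀` if `g = 1` and `≡ 1` otherwise (`g⁻¹ W₀ ≠ W₀`), so `x ≡ c mod w v₁`; if `w' ≠ w v₁` is above `v₁` then
`x ≡ 1 mod w'` (all the primes of `M₂` above `w'` are `≠ W₀`). As in the proof of `B_SMF`, `f(x) = y_(v₁) ≠ 0`. In both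
cases: by `B_KAP` there is `j` with `tr(ξ^j f(N x₀)) ≠ 0` (`x₀ = x`, resp. `α₀`, in `M₂`); let `g ∈ Gal(M₂/K)` be an
extension of `δ^j`: `F(g x₀) = tr(f(δ^j N x₀)) ≠ 0`. If `D` is not empty take `I = (g α₀)` (prime to
`p³ ∏_S ∏_D`, which is stable under `Gal`); if `D = ∅` split the divisor of `g x₀` outside `S` as in `B_SMF`.
*Last claim.* `W` free above `q` in `M₂`, `W₁` the prime of `M₁` below `W`, free, `x ∈ M₂ˣ` with the divisor `W`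
outside `S`. `N_(M₂/M₁) x` has the divisor `W₁` outside `S` (`W` is free, so of degree 1 over `W₁`), so by `V_SMF`,
last claim, and `B_CHR` for `M₁`: `tr f(N_(M₂/M) x) = tr f(N_(M₁/M) N_(M₂/M₁) x) = 0`; this is `idl ... W` by
`B_CHR` for `M₂`. -/
def V_SM2F : Prop :=
  ∀ (p : ℕ) [Fact p.Prime] (K M K₁ M₁ J M₂ : Type) [Field K] [NumberField K] [Field M]
    [NumberField M] [Field K₁] [NumberField K₁] [Field M₁] [NumberField M₁] [Field J]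
    [NumberField J] [Field M₂] [NumberField M₂] [Algebra K M] [Algebra K K₁]
    [Algebra K M₁] [Algebra M M₁] [Algebra K₁ M₁] [Algebra K J] [Algebra K M₂] [Algebra M M₂]
    [Algebra K₁ M₂] [Algebra M₁ M₂] [Algebra J M₂] (ε : K₁) (δ : M ≃ₐ[K] M) (P : (ZMod p)[X])
    (a₀ : M₂ˣ), SitB p K M K₁ M₁ J M₂ ε δ P a₀ →
  ∀ (B : Base p K M K₁ M₁ ε δ P) (_ : BaseB B a₀) (n : ℕ) (E : TauF n B), NrmInd E M₂ →
  ∀ (tr : AdjoinRoot P →ₗ[ZMod p] ZMod p), tr ≠ 0 →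
  ∀ (β : Fin n → AdjoinRoot P) (D : Finset (HeightOneSpectrum (𝓞 K)))
    (y : HeightOneSpectrum (𝓞 K) → AdjoinRoot P), (∀ v ∈ D, v ∈ Spl M₂ B.S ∧ y v ≠ 0) →
    (D.Nonempty ∨ β ≠ 0) → (∀ i, fSF B E β D y (B.u i) = 0) →
  Spl M₂ B.S ⊆ B.Vis ∧
  Psi p (mD p M₂ B.S D) (idl (up M₂ B.S) (fun x ↦ tr (fSF B E β D y (nrm M M₂ x)))) ∧
  (∃ I : Ideal (𝓞 M₂), I ≠ ⊥ ∧ I ⊔ mD p M₂ B.S D = ⊤ ∧
    idl (up M₂ B.S) (fun x ↦ tr (fSF B E β D y (nrm M M₂ x))) I ≠ 0 ∧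
    (D.Nonempty → ∃ α : 𝓞 M₂, I = Ideal.span {α})) ∧
  ∀ q ∈ Spl M₂ B.S, fSF B E β D y (nrm M M₁ (B.z q)) = 0 →
    ∀ W : HeightOneSpectrum (𝓞 M₂), Above W q → FreeP K W →
      idl (up M₂ B.S) (fun x ↦ tr (fSF B E β D y (nrm M M₂ x))) W.asIdeal = 0

/-- **V_SMN** (the field `sm` for `sysB`, with the hypothesis `NrmInd`; it replaces `V_SM`).

PROOF (from `V_SM2F`). As `B_SM` (`Helper76.PP.sm_core` for `F = M₂`, which is totally complex since `M₁` is, and the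
proof of `Helper76.PP.sm_gen`, `Helper42.PP1.w_sm`), with `Vis` replaced by `Spl M₂ S` and `M₁` by `M₂`; `unr` is
`BaseB.unr`. The formula `f(N z_q) = ∑ β_j til(h_j)(N z_q) + ∑ y_v A(v, q)` for `q ∈ Vis` is the third claim of
`V_SMF`. -/
def V_SMN : Prop :=
  ∀ (p : ℕ) [Fact p.Prime] (K M K₁ M₁ J M₂ : Type) [Field K] [NumberField K] [Field M]
    [NumberField M] [Field K₁] [NumberField K₁] [Field M₁] [NumberField M₁] [Field J]
    [NumberField J] [Field M₂] [NumberField M₂] [IsTotallyComplex M₁] [Algebra K M] [Algebra K K₁]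
    [Algebra K M₁] [Algebra M M₁] [Algebra K₁ M₁] [Algebra K J] [Algebra K M₂] [Algebra M M₂]
    [Algebra K₁ M₂] [Algebra M₁ M₂] [Algebra J M₂] (ε : K₁) (δ : M ≃ₐ[K] M) (P : (ZMod p)[X])
    [Fact (Irreducible P)] (a₀ : M₂ˣ), SitB p K M K₁ M₁ J M₂ ε δ P a₀ →
  ∀ (B : Base p K M K₁ M₁ ε δ P) (D : BaseB B a₀) (n : ℕ) (E : TauF n B), NrmInd E M₂ →
  ∀ (aτ : K₁ˣ) (tr : AdjoinRoot P →ₗ[ZMod p] ZMod p) (ψ₁ : AddChar (ZMod p) ℂ), tr ≠ 0 → ψ₁ ≠ 1 →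
  ∃ K₀ : ℕ, 1 ≤ K₀ ∧ ∀ K' : ℕ, K₀ ≤ K' →
    SmF (sysB B E (Spl M₂ B.S) D.s0 aτ) (psK tr ψ₁) K'

/-- **V_AK** (an element of type `P` which is a `p`-th power in `M₂` is a `p`-th power).

PROOF. Let `x = y^p`, `y ∈ M₂`, `x ∈ Mˣ` not a `p`-th power. It is not a `p`-th power in `M₁` (`[M₁ : M]` is prime to
`p`, norm), so `y ∉ M₁`, and there is `g₀ ∈ Gal(M₂/M₁)` with `g₀(y) = ε^a y`, `a ≢ 0` (`M₂/M₁` is Galois). Let
`τ ∈ Gal(M₂/K)` be trivial on `J`. `τ` commutes with `g₀`: `τ g₀ τ⁻¹ g₀⁻¹` is trivial on `J` (`Gal(J/K)` is abelian,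
`J/K` is normal) and on `M₁` (`g₀` is trivial on `M₁`, which is normal over `K`), so it is `1` (`lin₂`). Let
`τ ε = ε^(n(τ))`. (1) For all `i`: `g₀(τ^i y) = τ^i(g₀ y) = ε^(a n(τ)^i) τ^i(y)`. (2) Suppose that `τ = δ` on `M`.
`P(δ) x = w^p`, `w ∈ M`, so `∏_i τ^i(y)^(c_i) = ε^b w`, `c_i` the lifts of the coefficients of `P`; apply `g₀`:
`∑_i c_i n(τ)^i a = 0`, so `P(n(τ)) = 0` in `F_p`. Such `τ` exist: `τ = τ₀^e`, `τ₀` an extension of `δ`, `e ≡ 1 mod m`,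
`e ≡ 0 mod [J : K]` (`m = [M : K]` is prime to `p`). `P` is irreducible, so it is associated to `X - n(τ)`, and
`ξ = n(τ)` in `κ = F_p`. (3) Let `τ` be trivial on `M` (and `J`): `τ(y)^p = x`, so `τ(y) = ε^b y`, and
`g₀ τ y = ε^(a + b) y`, `τ g₀ y = ε^(a n(τ) + b) y`: `n(τ) = 1`. (4) So `n(g) = ξ^i` for every `g ∈ Gal(M₁/K)` with
`g = δ^i` on `M`: let `τ' ∈ Gal(M₂/K)` be an extension of `g`, `τ'' = τ'^e` with `e ≡ 1 mod [M₁ : K]`, `e ≡ 0 mod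
[J : K]`: `τ'' = g` on `M₁` (so also on `M` and `ε`), trivial on `J`; compare with `τ^i`, `τ` from (2): `τ''τ^(-i)` is
trivial on `M` and `J`, so by (3) `n(τ'') = n(τ)^i = ξ^i`. (5) This contradicts `NTV`: any `tr ≠ 0`, `η = 1`,
`γ = -tr(1)`: for all `g, i, σ` as in `NTV`, `tr(ξ^(m-i)) + γ n(σ)⁻¹ = tr(1)(ξ^(-i) - n(g)⁻¹) = 0` (`ξ^m = 1`,
`κ = F_p`). -/
def V_AK : Prop :=
  ∀ (p : ℕ) [Fact p.Prime] (K M K₁ M₁ J M₂ : Type) [Field K] [NumberField K] [Field M]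
    [NumberField M] [Field K₁] [NumberField K₁] [Field M₁] [NumberField M₁] [Field J]
    [NumberField J] [Field M₂] [NumberField M₂] [Algebra K M] [Algebra K K₁]
    [Algebra K M₁] [Algebra M M₁] [Algebra K₁ M₁] [Algebra K J] [Algebra K M₂] [Algebra M M₂]
    [Algebra K₁ M₂] [Algebra M₁ M₂] [Algebra J M₂] (ε : K₁) (δ : M ≃ₐ[K] M) (P : (ZMod p)[X])
    (a₀ : M₂ˣ), SitB p K M K₁ M₁ J M₂ ε δ P a₀ → NTV p M₁ ε δ P →
  ∀ x : Mˣ, Pw p (pol P δ x) → (∃ y : M₂, y ^ p = algebraMap M M₂ (x : M)) → Pw p x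

/-- **V_KUE** (`W_KUE` with the additional information that `X₀` is of type `P`).

PROOF. That of `Helper42.PP1.w_kue` (`X₀ = pol e δ Y`; the file contains the proof of `Pw p (pol P δ X₀)`). -/
def V_KUE : Prop :=
  ∀ (p : ℕ) [Fact p.Prime] (K M K₁ M₁ : Type) [Field K] [NumberField K] [Field M] [NumberField M]
    [Field K₁] [NumberField K₁] [Field M₁] [NumberField M₁] [Algebra K M] [Algebra K K₁]
    [Algebra K M₁] [Algebra M M₁] [Algebra K₁ M₁] (ε : K₁)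
    (δ : M ≃ₐ[K] M) (P : (ZMod p)[X]), SitW p K M K₁ M₁ ε δ P →
  ∀ (B : Base p K M K₁ M₁ ε δ P) (x : Fin B.r → AdjoinRoot P)
    (D : Finset (HeightOneSpectrum (𝓞 K))) (c : HeightOneSpectrum (𝓞 K) → AdjoinRoot P),
    (∀ q ∈ D, q ∈ B.Vis ∧ c q ≠ 0) → (D.Nonempty ∨ x ≠ 0) →
  ∃ X₀ : Mˣ, Pw p (pol P δ X₀) ∧ ¬ Pw p X₀ ∧
    ∀ v ∈ B.Vis, v ∉ D → ∑ i, x i * B.R v (B.u i) + ∑ q ∈ D, c q * B.A v q = 0 →
      ∀ W : HeightOneSpectrum (𝓞 M₁), Above W v → FreeP K W →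
        LocPow p W (algebraMap M M₁ (X₀ : M))

end Pool.Agent.Helper76.PB
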