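import Pool.Agent.Helper76.PB.KUE
import Pool.Agent.Helper79.PP.PVIS
import Pool.Agent.Helper14.PP.BKUM
import Pool.Agent.Helper5.PP.BTRS
import Pool.Agent.Helper53.PP.BTRN
import Pool.Agent.Helper83.PP.BFRE

/-!
# Project B: V_KUM (the proof of `Helper42.PP1.w_kum`, over `M₂`)
-/

set_option autoImplicit false
set_option linter.unusedSectionVars false

namespace Pool.Agent.Helper76.PB

open NumberField Polynomial Module IsDedekindDomain
open Pool.Agent.Helper51.RP Pool.Agent.Helper42.RD Pool.Agent.Helper42.PP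
open Pool.Agent.Helper51.SigLeo (IwasawaLog)
open Pool.Agent.Helper38.RS (pz)
open Pool.Agent.Helper76.PP
open Pool.Agent.Helper84.RS (summable_norm)
open Pool.Agent.Helper14.PP
open Pool.Agent.Helper42.PP1 Pool.Agent.Helper42.PB
open Pool.Agent.Helper40.RD (bel_of_above valW)

theorem v_kum (hAK : V_AK) : V_KUM := by
  have h1 := v_kue
  have h2 := Pool.Agent.Helper5.PP.b_trs Pool.Agent.Helper83.PP.b_fre Pool.Agent.Helper16.PP.p_upr
  have h3 := Pool.Agent.Helper53.PP.b_trn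
  have h4 := Pool.Agent.Helper16.PP.p_upr
  classical
  intro p hpF K M K₁ M₁ J M₂ _ _ _ _ _ _ _ _ _ _ _ _ _ _ _ _ _ _ _ _ _ _ _ ε δ P hPi a₀ hB hN B D' n
    E aτ
  have hSit := hB.sit
  have := hB.t1
  have := hB.t2
  have := hB.t3
  have := hB.gM₂
  have := hSit.st1
  have := hSit.st2
  have := hSit.gM
  have := hSit.gK
  have := hSit.gMK
  have hp : p.Prime := hpF.out
  have hVV : Spl M₂ B.S ⊆ B.Vis := by
    rintro v ⟨hvS, W, hWv, hWf⟩
    refine ⟨hvS, Pool.Agent.Helper40.RS.bel M₁ W, ?_, Pool.Agent.Helper79.PP.free_bel W hWf⟩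
    exact bel_of hWv (show Above W _ from rfl)
  have hKM₂ : IsScalarTower K M M₂ := IsScalarTower.of_algebraMap_eq fun x => by
    rw [IsScalarTower.algebraMap_apply K M₁ M₂, IsScalarTower.algebraMap_apply K M M₁,
      ← IsScalarTower.algebraMap_apply M M₁ M₂]
  intro x c hc hinj hne T₀
  -- the set of the primes of the support
  set D : Finset (HeightOneSpectrum (𝓞 K)) := c.support.image (fun q => q.1.1) with hD
  set c₀ : HeightOneSpectrum (𝓞 K) → AdjoinRoot P := fun v =>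
    if h : ∃ q ∈ c.support, q.1.1 = v then c h.choose else 0 with hc₀
  have hc₀q : ∀ q ∈ c.support, c₀ q.1.1 = c q := by
    intro q hq
    have h : ∃ q' ∈ c.support, q'.1.1 = q.1.1 := ⟨q, hq, rfl⟩
    rw [hc₀]
    simp only
    rw [dif_pos h]
    congr 1
    exact hinj h.choose_spec.1 hq h.choose_spec.2
  have hsum : ∀ v : HeightOneSpectrum (𝓞 K),
      ∑ q ∈ D, c₀ q * B.A v q = ∑ q' ∈ c.support, c q' * B.A v q'.1.1 := by
    intro v
    rw [hD, Finset.sum_image (g := fun q : B.LP => q.1.1) (fun a ha b hb h => hinj ha hb h)]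
    exact Finset.sum_congr rfl fun q hq => by rw [hc₀q q hq]
  have hDV : ∀ q ∈ D, q ∈ B.Vis ∧ c₀ q ≠ 0 := by
    intro v hv
    rw [hD, Finset.mem_image] at hv
    obtain ⟨q, hq, rfl⟩ := hv
    refine ⟨hVV (hc q (Finsupp.mem_support_iff.1 hq)), ?_⟩
    rw [hc₀q q hq]
    exact Finsupp.mem_support_iff.1 hq
  have hDne : D.Nonempty ∨ x ≠ 0 := by
    by_cases hx : x = 0
    · left
      have hc0 : c ≠ 0 := fun h => hne ⟨hx, h⟩
      rw [hD, Finset.image_nonempty]
      exact Finsupp.support_nonempty_iff.2 hc0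
    · exact Or.inr hx
  obtain ⟨X₀, hXP, hXn, hloc⟩ := h1 p K M K₁ M₁ ε δ P hSit B x D c₀ hDV hDne
  have hX₀ : ¬ ∃ y : M₂, y ^ p = algebraMap M M₂ (X₀ : M) := fun h =>
    hXn (hAK p K M K₁ M₁ J M₂ ε δ P a₀ hB hN X₀ hXP h)
  set Xm : M₂ := algebraMap M M₂ (X₀ : M) with hXm
  have hXm0 : Xm ≠ 0 := (map_ne_zero (algebraMap M M₂)).2 X₀.ne_zero
  -- the set of the primes with nonzero symbol
  set V : Set (HeightOneSpectrum (𝓞 K)) :=
    {v | v ∈ Spl M₂ B.S ∧ v ∉ D ∧ ∑ i, x i * B.R v (B.u i) + ∑ q ∈ D, c₀ q * B.A v q ≠ 0} with hV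
  obtain ⟨hup1, -, hup3, -⟩ := h4 p K M₂ B.S
  have hval : ∀ w : HeightOneSpectrum (𝓞 M₂), w.valuation M₂ (p : M₂) ≤ 1 := by
    intro w
    have h := w.valuation_le_one (K := M₂) (p : 𝓞 M₂)
    simpa using h
  have hZ : {w : HeightOneSpectrum (𝓞 M₂) | w.valuation M₂ (p : M₂) ≠ 1}.Finite := by
    refine hup1.subset ?_
    intro w hw
    exact hup3 B.abp w (lt_of_le_of_ne (hval w) hw)
  set g : HeightOneSpectrum (𝓞 M₂) → ℝ := fun w =>
    if w.valuation M₂ (p : M₂) = 1 ∧ ¬ LocPow p w Xm then 1 else 0 with hg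
  have hg0 : ∀ w, 0 ≤ g w := by
    intro w
    rw [hg]
    simp only
    split_ifs
    · exact zero_le_one
    · exact le_rfl
  have hg1 : ∀ w, g w ≤ 1 := by
    intro w
    rw [hg]
    simp only
    split_ifs
    · exact le_rfl
    · exact zero_le_one
  obtain ⟨C₁, hC₁⟩ := lower p (algebraMap K₁ M₂ ε) Xm
    (hSit.prim.map_of_injective (algebraMap K₁ M₂).injective) hXm0 hX₀ hZ g
    (fun w hw1 hw2 => by
      rw [hg]
      exact if_pos ⟨hw1, hw2⟩) hg0 hg1
  obtain ⟨C₂, hC₂⟩ := h2 K M₂ B.S D'.unr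
  obtain ⟨C₃, hC₃⟩ := h3 K
  have hC₂' := hC₂ D V g (fun w => ⟨hg0 w, (hg1 w).trans one_le_two⟩) (by
    intro W v hWv hWf hvS hvD hvV
    rw [hg]
    refine if_neg ?_
    rintro ⟨-, hW⟩
    apply hW
    have hvis : v ∈ Spl M₂ B.S := ⟨hvS, W, hWv, hWf⟩
    have hW₁ : Above W (Pool.Agent.Helper40.RS.bel M₁ W) := rfl
    obtain ⟨y, hy⟩ := hloc v (hVV hvis) hvD (by
      by_contra h0
      exact hvV ⟨hvis, hvD, h0⟩) (Pool.Agent.Helper40.RS.bel M₁ W) (bel_of hWv hW₁)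
      (Pool.Agent.Helper79.PP.free_bel W hWf)
    refine ⟨algebraMap M₁ M₂ y, ?_⟩
    have e : Xm * (algebraMap M₁ M₂ y) ^ p - 1 =
        algebraMap M₁ M₂ (algebraMap M M₁ (X₀ : M) * y ^ p - 1) := by
      rw [map_sub, map_mul, map_pow, map_one, ← IsScalarTower.algebraMap_apply M M₁ M₂]
    rw [e, valW]
    exact pow_lt_one₀ zero_le hy (Pool.Agent.Helper79.PP.ram_ne (A := M₁) W))
  -- the constants
  set d : ℝ := (finrank K M₂ : ℝ) with hd
  have hfd : FiniteDimensional K M₂ := Module.Finite.of_restrictScalars_finite ℚ K M₂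
  have hd0 : 0 < d := by
    rw [hd]
    exact_mod_cast finrank_pos (R := K) (M := M₂)
  set σD : ℝ := ∑ v ∈ D, (1 : ℝ) / Ideal.absNorm v.asIdeal with hσD
  have hp2 : (2 : ℝ) ≤ p := by exact_mod_cast hp.two_le
  have hpp : 0 < 1 - 1 / (p : ℝ) := by
    have : 1 / (p : ℝ) ≤ 1 / 2 := one_div_le_one_div_of_le two_pos hp2
    linarith
  have hlog : 0 < Real.log 2 := Real.log_pos (by norm_num)
  have hlog2 : 1 / 2 < Real.log 2 := by
    have := Real.log_two_gt_d9
    linarith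
  -- the lower bound tends to infinity
  have htend : Filter.Tendsto (fun n : ℕ => (1 - 1 / (p : ℝ)) * Real.log (n * Real.log 2))
      Filter.atTop Filter.atTop := by
    refine Filter.Tendsto.const_mul_atTop hpp ?_
    refine Real.tendsto_log_atTop.comp ?_
    exact (tendsto_natCast_atTop_atTop (R := ℝ)).atTop_mul_const hlog
  obtain ⟨n, hn2, hn⟩ := ((Filter.eventually_ge_atTop 2).and
    (htend.eventually_ge_atTop (2 * d * (T₀ + C₃) + 2 * d * σD + C₂ + C₁))).exists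
  refine ⟨n, ?_⟩
  have hn2r : (2 : ℝ) ≤ n := by exact_mod_cast hn2
  have hnl : 1 < n * Real.log 2 := by nlinarith
  set s : ℝ := 1 + 1 / (n * Real.log 2) with hs
  have hs1 : 1 < s := by
    rw [hs]
    have : 0 < 1 / (n * Real.log 2) := one_div_pos.2 (by linarith)
    linarith
  have hs2 : s ≤ 2 := by
    rw [hs]
    have : 1 / (n * Real.log 2) ≤ 1 := by
      rw [div_le_one (by linarith)]
      exact hnl.le
    linarith
  have hs3 : 1 / (s - 1) = n * Real.log 2 := by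
    rw [hs, add_sub_cancel_left, one_div_one_div]
  have e1 := hC₁ s hs1 hs2
  have e2 := hC₂' s hs1 hs2
  rw [hs3] at e1
  have hAfin : {v : HeightOneSpectrum (𝓞 K) | v ∈ V ∧ Ideal.absNorm v.asIdeal < 2 ^ n}.Finite := by
    have h : {v : HeightOneSpectrum (𝓞 K) | Ideal.absNorm v.asIdeal ≤ 2 ^ n}.Finite := by
      refine Set.Finite.of_finite_image (f := HeightOneSpectrum.asIdeal) ?_ ?_
      · refine (Ideal.finite_setOfPred_absNorm_le (S := 𝓞 K) (2 ^ n)).subset ?_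
        rintro _ ⟨v, hv, rfl⟩
        exact hv
      · intro v _ w _ h
        exact HeightOneSpectrum.ext h
    exact h.subset fun v hv => hv.2.le
  set A : Finset (HeightOneSpectrum (𝓞 K)) := hAfin.toFinset with hA
  have hAm : ∀ v, v ∈ A ↔ v ∈ V ∧ Ideal.absNorm v.asIdeal < 2 ^ n := by
    intro v
    rw [hA, Set.Finite.mem_toFinset]
    rfl
  have e3 := hC₃ V n A hn2 hAm
  rw [← hs] at e3
  have hTA : T₀ ≤ ∑ v ∈ A, (1 : ℝ) / Ideal.absNorm v.asIdeal := by
    have h5 : 2 * d * (T₀ + C₃) ≤ 2 * d * pz V s := by linarith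
    have h6 : T₀ + C₃ ≤ pz V s := le_of_mul_le_mul_left h5 (by linarith)
    linarith
  refine hTA.trans ?_
  -- comparison of the sums
  have hVc : ∀ v ∈ A, v ∈ B.calP := by
    intro v hv
    obtain ⟨⟨hvis, -, -⟩, -⟩ := (hAm v).1 hv
    obtain ⟨hvS, W, hWv, hWf⟩ := hVV hvis
    have hv1 : v.valuation K (p : K) = 1 := by
      have h := v.valuation_le_one (K := K) (p : 𝓞 K)
      have h' : v.valuation K (p : K) ≤ 1 := by simpa using h
      rcases h'.lt_or_eq with h6 | h6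
      · exact (hvS (B.abp v h6)).elim
      · exact h6
    have h6 := (hSit.vis v hv1).1 W hWv hWf
    have hWQ : Above W (Pool.Agent.Helper40.RS.bel K₁ W) := rfl
    have h7 := h6.2.2 _ hWQ
    exact ⟨hvS, _, h7.2.2, h7.1⟩
  set q₀ : {v // v ∈ A} → B.LP := fun v => ⟨(v.1, 1), hVc v.1 v.2⟩ with hq₀
  have hq₀i : Function.Injective q₀ := by
    intro v v' h
    apply Subtype.ext
    have h6 := congrArg (fun q : B.LP => q.1.1) h
    exact h6
  have hAs : ∑ v ∈ A, (1 : ℝ) / Ideal.absNorm v.asIdeal =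
      ∑ q ∈ A.attach.image q₀, (1 : ℝ) / ((sysB B E (Spl M₂ B.S) D'.s0 aτ).N q : ℝ) := by
    rw [← Finset.sum_attach A, Finset.sum_image (g := q₀) (fun v _ v' _ h => hq₀i h)]
    rfl
  rw [hAs]
  refine Finset.sum_le_sum_of_subset_of_nonneg ?_ (fun q _ _ => by positivity)
  intro q hq
  rw [Finset.mem_image] at hq
  obtain ⟨v, -, rfl⟩ := hq
  obtain ⟨⟨hvis, hvD, hvne⟩, hvn⟩ := (hAm v.1).1 v.2
  have hN : (sysB B E (Spl M₂ B.S) D'.s0 aτ).N (q₀ v) = Ideal.absNorm v.1.asIdeal := rfl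
  rw [Finset.mem_filter]
  refine ⟨?_, hvis, ?_, ?_⟩
  · unfold Pool.Agent.Helper17.PP.Sys.below Pool.Agent.Helper17.PP.Sys.bl
    rw [Finset.mem_filter, Set.Finite.mem_toFinset]
    refine ⟨?_, ?_⟩
    · show (sysB B E (Spl M₂ B.S) D'.s0 aτ).N (q₀ v) ≤ 2 ^ n
      rw [hN]
      exact hvn.le
    · rw [hN]
      refine Nat.log_lt_of_lt_pow ?_ hvn
      rw [Ne, Ideal.absNorm_eq_zero_iff]
      exact v.1.ne_bot
  · intro q' hq' h
    apply hvD
    rw [hD, Finset.mem_image]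
    exact ⟨q', hq', h⟩
  · intro h0
    apply hvne
    rw [hsum, ← h0]
    congr 1
    show _ = (∑ i, (LinearMap.proj i).smulRight (B.R v.1 (B.u i))) x
    rw [LinearMap.sum_apply]
    rfl

end Pool.Agent.Helper76.PB
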