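import Pool.Agent.Helper76.PB.AsmF
import Pool.Agent.Helper76.PB.SMN
import Pool.Agent.Helper76.PB.KUM
import Pool.Agent.Helper2.PB.XDK
import Pool.Agent.Helper27.PB.VSM2F
import Pool.Agent.Helper57.PB.VAK
import Pool.Agent.Helper94.PB.VEX1

/-!
# Project B: the line, `NrmInd`, `sm` and `kum`, without hypotheses
-/

set_option autoImplicit false

namespace Pool.Agent.Helper76.PB

theorem a_line' : V_LINE := a_line Pool.Agent.Helper2.PB.x_dk

theorem a_aln' : V_ALN' := a_aln Pool.Agent.Helper2.PB.x_dk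

theorem a_ext1 : Pool.Agent.Helper11.PB.M_EXT1 := Pool.Agent.Helper94.PB.m_ext1 a_line'

theorem a_smn : V_SMN := v_smn Pool.Agent.Helper27.PB.v_sm2f

theorem a_kum : Pool.Agent.Helper42.PB.V_KUM := v_kum Pool.Agent.Helper57.PB.v_ak

end Pool.Agent.Helper76.PB
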