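import Pool.Agent.Helper50.PB.XHQ
import Pool.Agent.Helper83.PB.XRKS
import Pool.Agent.Helper16.PB.XH90
import Pool.Agent.Helper32.PB.XLCF
import Pool.Agent.Helper27.PB.XSPC
import Pool.Agent.Helper74.PB.XFI
import Pool.Agent.Helper91.PB.XSPD
import Pool.Agent.Helper99.PB.XDN
import Pool.Agent.Helper81.PB.XKLB
import Pool.Agent.Helper59.PB.XDB
import Pool.Agent.Helper30.PB.XFIK
import Pool.Agent.Helper33.PB.XLIX
import Pool.Agent.Helper56.PB.XUNL
import Pool.Agent.Helper19.PB.XCNT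
import Pool.Agent.Helper96.PB.XLIN
import Pool.Agent.Helper86.PB.XINJ
import Pool.Agent.Helper83.PB.XLIF
import Pool.Agent.Helper44.PB.VLINE
import Pool.Agent.Helper99.PB.VALN

/-!
# Project B: assembly of the line (from `X_DK`)
-/

set_option autoImplicit false

namespace Pool.Agent.Helper76.PB

theorem a_fi : X_FI :=
  Pool.Agent.Helper74.PB.x_fi Pool.Agent.Helper50.PB.x_hq Pool.Agent.Helper83.PB.x_rks
    Pool.Agent.Helper16.PB.x_h90 Pool.Agent.Helper32.PB.x_lcf Pool.Agent.Helper27.PB.x_spc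

theorem a_fik : X_FIK := Pool.Agent.Helper30.PB.x_fik a_fi Pool.Agent.Helper27.PB.x_spc

theorem a_klb : X_KLB := Pool.Agent.Helper81.PB.x_klb Pool.Agent.Helper91.PB.x_spd

theorem a_unl : X_UNL := Pool.Agent.Helper56.PB.x_unl Pool.Agent.Helper83.PB.x_rks

theorem a_dn (h : X_DK) : X_DN := Pool.Agent.Helper99.PB.x_dn h Pool.Agent.Helper91.PB.x_spd

theorem a_db (h : X_DK) : X_DB := Pool.Agent.Helper59.PB.x_db h a_klb

theorem a_cnt (h : X_DK) : X_CNT :=
  Pool.Agent.Helper19.PB.x_cnt a_fik (a_db h) a_klb Pool.Agent.Helper33.PB.x_lix a_unl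

theorem a_lin (h : X_DK) : X_LIN := Pool.Agent.Helper96.PB.x_lin (a_cnt h) (a_db h) a_klb

theorem a_lif (h : X_DK) : X_LIF := Pool.Agent.Helper83.PB.x_lif (a_lin h) Pool.Agent.Helper86.PB.x_inj

theorem a_line (h : X_DK) : V_LINE := Pool.Agent.Helper44.PB.v_line (a_lif h) (a_dn h) a_fi

theorem a_aln (h : X_DK) : V_ALN' := Pool.Agent.Helper99.PB.v_aln' (a_line h)

end Pool.Agent.Helper76.PB
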