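import Pool.Agent.Helper42.PP1.Goals3

/-!
# PROJECT B (MP_fc6b1e_nt): general base characters `χ₁ = χ₀ ψ₀`; definitions

`ψ₀` is a character of `p`-power order `p^(s+1)` (or `1`), trivial on the decomposition groups above `p`, `L/K`
is the cyclic extension of degree `p^s` cut out by `ψ₀^p`, `M₂ = M₁ L`. `a₀ ∈ M₂ˣ` is a Kummer generator of the
extension of degree `p` of `M₂` cut out by `ψ₀`. The twisted Selmer group of `a ∈ K₁ˣ` (the character
`φ` of order `p`, so `χ₁ φ`) is `Sel (M₁ := M₂) Lg (above T) P δ (a₀ a)`: elements of `Mˣ`, with local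
conditions at the primes of `M₂`.
-/

set_option autoImplicit false

namespace Pool.Agent.Helper76.PB

open NumberField Polynomial Module IsDedekindDomain
open Pool.Agent.Helper51.SigLeo (IwasawaLog)
open Pool.Agent.Helper51.RP Pool.Agent.Helper42.RD Pool.Agent.Helper42.PP Pool.Agent.Helper42.PP1

/-- The situation of project B: `SitW`, a cyclic extension `L/K` of degree `p^s` in which the primes above
`p` split completely, and `M₂ = M₁ L`. -/
structure SitB (p : ℕ) [Fact p.Prime] (K M K₁ M₁ L M₂ : Type) [Field K] [NumberField K] [Field M]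
    [NumberField M] [Field K₁] [NumberField K₁] [Field M₁] [NumberField M₁] [Field L]
    [NumberField L] [Field M₂] [NumberField M₂] [Algebra K M] [Algebra K K₁] [Algebra K M₁]
    [Algebra M M₁] [Algebra K₁ M₁] [Algebra K L] [Algebra K M₂] [Algebra M M₂] [Algebra K₁ M₂]
    [Algebra M₁ M₂] [Algebra L M₂] (ε : K₁) (δ : M ≃ₐ[K] M) (P : (ZMod p)[X]) : Prop where
  w : SitW p K M K₁ M₁ ε δ P
  tc : IsTotallyComplex K
  t1 : IsScalarTower K M₁ M₂
  t2 : IsScalarTower M M₁ M₂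
  t3 : IsScalarTower K₁ M₁ M₂
  t4 : IsScalarTower K L M₂
  t5 : IsScalarTower K M M₂
  t6 : IsScalarTower K K₁ M₂
  gL : IsGalois K L
  cycL : IsCyclic (L ≃ₐ[K] L)
  degL : ∃ s : ℕ, finrank K L = p ^ s
  gM2 : IsGalois K M₂
  lin2 : ∀ g : M₂ ≃ₐ[K] M₂, (∀ x : M₁, g (algebraMap M₁ M₂ x) = algebraMap M₁ M₂ x) →
    (∀ x : L, g (algebraMap L M₂ x) = algebraMap L M₂ x) → g = 1
  spl : ∀ v : HeightOneSpectrum (𝓞 K), v.valuation K (p : K) < 1 →
    ∀ V : HeightOneSpectrum (𝓞 L), Above V v → FreeP K V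

/-- `a₀` is a Kummer generator over `M₂` of a cyclic extension of `M₁` of degree `p [M₂ : M₁]`, abelian over
`K`, with valuations divisible by `p` at the primes above `p`. -/
structure IsKum (p : ℕ) (K M₁ : Type) {K₁ M₂ : Type} [Field K] [Field K₁] [Field M₁] [Field M₂]
    [NumberField M₂] [Algebra K K₁] [Algebra K M₂] [Algebra K₁ M₂] [Algebra M₁ M₂] (ε : K₁)
    (a₀ : M₂ˣ) : Prop where
  om : OmType p K (algebraMap K₁ M₂ ε) (a₀ : M₂)
  cyc : ∀ τ : M₂ ≃ₐ[M₁] M₂, τ ≠ 1 → ∃ c : M₂ˣ, act τ a₀ = a₀ * c ^ p ∧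
    ∏ i ∈ Finset.range (orderOf τ), act (τ ^ i) c ≠ 1
  ord : ∀ W : HeightOneSpectrum (𝓞 M₂), W.valuation M₂ (p : M₂) < 1 → (p : ℤ) ∣ ordv W (a₀ : M₂)

section B2

variable {p : ℕ} [Fact p.Prime] {K M K₁ M₁ : Type} [Field K] [NumberField K] [Field M]
    [NumberField M] [Field K₁] [NumberField K₁] [Field M₁] [NumberField M₁] [Algebra K M]
    [Algebra K K₁] [Algebra K M₁] [Algebra M M₁] [Algebra K₁ M₁] {ε : K₁} {δ : M ≃ₐ[K] M}
    {P : (ZMod p)[X]}

/-- The set `S` of the data `B` is large enough for `M₂`: it contains the primes of `K` which ramify in `M₂`,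
and all divisors of `M₂` are principal outside `S`. -/
structure B2 (B : Base p K M K₁ M₁ ε δ P) (M₂ : Type) [Field M₂] [NumberField M₂] [Algebra K M₂] :
    Prop where
  unr : ∀ v : HeightOneSpectrum (𝓞 K), v ∉ B.S → ∀ W : HeightOneSpectrum (𝓞 M₂), Above W v →
    ∀ x : K, ordv W (algebraMap K M₂ x) = ordv v x
  pr : ∀ n : HeightOneSpectrum (𝓞 M₂) →₀ ℤ, ∃ x : M₂ˣ, ∀ w ∉ up M₂ B.S, ordv w (x : M₂) = n w

/-- The functionals which express the local conditions at `S` and at the places of `T`, for the local class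
of `aτ` at `S`, for the Selmer groups `Sel (M₁ := M₂) Lg (above T) P δ (a₀ a)`. The independence `hN` is
modulo the functionals which kill the `S`-units and the norms from `M₂`. -/
structure TauB {k : Type} [NormedField k] (n : ℕ) (B : Base p K M K₁ M₁ ε δ P)
    (Lg : IwasawaLog p k) (T : Set (K →+* k)) {M₂ : Type} [Field M₂] [NumberField M₂]
    [Algebra K M₂] [Algebra M M₂] [Algebra K₁ M₂] (a₀ : M₂ˣ) (aτ : K₁ˣ) where
  h : Fin n → Mˣ → AdjoinRoot P
  hP : ∀ j, IsP δ P (h j)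
  hL : ∀ j x, LocS p (up M B.S) x → h j x = 0
  hS : ∀ j x, Pw p (pol P δ x) → (∀ W ∈ up M₂ B.S,
    LocAt p W ((a₀ : M₂) * algebraMap K₁ M₂ (aτ : K₁)) (algebraMap M M₂ (x : M))) →
    LocSig Lg (above T) x → h j x = 0
  hN : ∀ c : Fin n → AdjoinRoot P, (∀ i, ∑ j, c j * h j (B.u i) = 0) →
    (∀ x : M₂ˣ, ∑ j, c j * h j (nrm M M₂ x) = 0) → c = 0

variable [Fact (Irreducible P)] (B : Base p K M K₁ M₁ ε δ P)

/-- The abstract system for the set `V` of visible primes, with the functionals `h`, for the local class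
of `aτ` at `S`; `s₀` is the contribution of `a₀` to the symbols at the visible primes. -/
noncomputable def sysB (V : Set (HeightOneSpectrum (𝓞 K))) (s₀ : HeightOneSpectrum (𝓞 K) → ZMod p)
    {n : ℕ} (h : Fin n → Mˣ → AdjoinRoot P) (aτ : K₁ˣ) :
    Pool.Agent.Helper17.PP.Sys p B.LP (HeightOneSpectrum (𝓞 K))
      (AdjoinRoot P) (Fin B.r → AdjoinRoot P) (Fin n → AdjoinRoot P) (Fin B.t → ZMod p) where
  bs q := q.1.1
  N q := Ideal.absNorm q.1.1.asIdeal
  spl q := q.1.1 ∈ V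
  cls q j := (q.1.2 : ZMod p) * B.cl j q.1.1
  cl₀ j := B.ch j aτ
  lam₀ := LinearMap.pi fun j ↦ ∑ i, (LinearMap.proj i).smulRight (h j (B.u i))
  lam q := LinearMap.pi fun j ↦
    LinearMap.id.smulRight (B.til (h j) (nrm M M₁ (B.z q.1.1)))
  res q := ∑ i, (LinearMap.proj i).smulRight (B.R q.1.1 (B.u i))
  a q q' := B.A q.1.1 q'.1.1
  dg q := B.A q.1.1 q.1.1 - algebraMap (ZMod p) (AdjoinRoot P)
    ((q.1.2 : ZMod p)⁻¹ * (B.sv aτ q.1.1 + s₀ q.1.1) + B.pi q.1.1 q.1.1)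
  kap q q' := - ((q'.1.2 : ZMod p) * (q.1.2 : ZMod p)⁻¹ * B.pi q.1.1 q'.1.1)
  two_le q := by
    have h1 : Ideal.absNorm q.1.1.asIdeal ≠ 1 := by
      rw [Ne, Ideal.absNorm_eq_one_iff]
      exact q.1.1.isPrime.ne_top
    have h0 : Ideal.absNorm q.1.1.asIdeal ≠ 0 := by
      rw [Ne, Ideal.absNorm_eq_zero_iff]
      exact q.1.1.ne_bot
    omega
  fin Z := by
    have h : {v : HeightOneSpectrum (𝓞 K) | Ideal.absNorm v.asIdeal ≤ Z}.Finite := by
      refine Set.Finite.of_finite_image (f := HeightOneSpectrum.asIdeal) ?_ ?_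
      · refine (Ideal.finite_setOfPred_absNorm_le (S := 𝓞 K) Z).subset ?_
        rintro _ ⟨v, hv, rfl⟩
        exact hv
      · intro v _ w _ h
        exact HeightOneSpectrum.ext h
    have h2 : (({v : HeightOneSpectrum (𝓞 K) | Ideal.absNorm v.asIdeal ≤ Z}) ×ˢ
        (Set.univ : Set (ZMod p)ˣ)).Finite := h.prod Set.finite_univ
    refine Set.Finite.of_finite_image (f := Subtype.val) (h2.subset ?_)
      Subtype.val_injective.injOn
    rintro _ ⟨q, hq, rfl⟩
    exact ⟨hq, Set.mem_univ _⟩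
  bsN q q' h := by
    have h' : q.1.1 = q'.1.1 := h
    rw [h']
  bsS q q' h := by
    have h' : q.1.1 = q'.1.1 := h
    rw [h']

/-- The `P`-functional `∑_j β_j h_j + ∑_{v ∈ D} y_v R_v` on `Mˣ`. -/
noncomputable def fB {n : ℕ} (h : Fin n → Mˣ → AdjoinRoot P) (β : Fin n → AdjoinRoot P)
    (D : Finset (HeightOneSpectrum (𝓞 K))) (y : HeightOneSpectrum (𝓞 K) → AdjoinRoot P)
    (x : Mˣ) : AdjoinRoot P :=
  ∑ j, β j * h j x + ∑ v ∈ D, y v * B.R v x

end B2

end Pool.Agent.Helper76.PB
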