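import Pool.Agent.Helper76.PB.NrmInd
import Pool.Agent.Helper38.RSP.Goals3

/-!
# Project B: the tame first inequality, densities and the counting argument (no reciprocity law)

Every statement is a `def ... : Prop` with its complete proof in the docstring. `F` is a number field, `Z` a
finite set of primes of `F`. The aim is `V_LINE`: the functionals `f : M₁ˣ → F_p` which kill the elements with
`LocS`, the `S`-units and the norms from `M₂` are multiples of one functional, invariant under `Gal(M₁/K)`.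
-/

set_option autoImplicit false

namespace Pool.Agent.Helper76.PB

open NumberField Polynomial Module IsDedekindDomain
open Pool.Agent.Helper51.RP Pool.Agent.Helper42.RD Pool.Agent.Helper42.PP Pool.Agent.Helper42.PP1
open Pool.Agent.Helper42.PB
open Pool.Agent.Helper38.RS (pz)

section defs

/-- All the divisors of `F` are principal outside `Z`. -/
def PrZ (F : Type) [Field F] [NumberField F] (Z : Set (HeightOneSpectrum (𝓞 F))) : Prop :=
  ∀ n : HeightOneSpectrum (𝓞 F) →₀ ℤ, ∃ x : Fˣ, ∀ w ∉ Z, ordv w (x : F) = n w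

/-- `E/F` is unramified outside `Z`. -/
def UnrZ (F E : Type) [Field F] [NumberField F] [Field E] [NumberField E] [Algebra F E]
    (Z : Set (HeightOneSpectrum (𝓞 F))) : Prop :=
  ∀ v ∉ Z, ∀ W : HeightOneSpectrum (𝓞 E), Above W v → ∀ x : F, ordv W (algebraMap F E x) = ordv v x

/-- The primes of `E` above `Z`. -/
def upZ {F : Type} (E : Type) [Field F] [NumberField F] [Field E] [NumberField E] [Algebra F E]
    (Z : Set (HeightOneSpectrum (𝓞 F))) : Set (HeightOneSpectrum (𝓞 E)) :=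
  {W | ∃ v ∈ Z, Above W v}

/-- The primes `v ∉ Z` of `F` which are completely split in `E`. -/
def SplZ {F : Type} (E : Type) [Field F] [NumberField F] [Field E] [NumberField E] [Algebra F E]
    (Z : Set (HeightOneSpectrum (𝓞 F))) : Set (HeightOneSpectrum (𝓞 F)) :=
  {v | v ∉ Z ∧ ∃ W : HeightOneSpectrum (𝓞 E), Above W v ∧ FreeP F W}

variable {F : Type} [Field F] [NumberField F]

/-- The functional `f` vanishes at the prime `w` (at the elements with divisor `w` outside `Z`). -/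
def Van {p : ℕ} (Z : Set (HeightOneSpectrum (𝓞 F))) (f : Fˣ → ZMod p)
    (w : HeightOneSpectrum (𝓞 F)) : Prop :=
  ∀ x : Fˣ, (∀ w' ∉ Z, (w' = w → ordv w' (x : F) = 1) ∧ (w' ≠ w → ordv w' (x : F) = 0)) → f x = 0

/-- `f` is a homomorphism which kills the elements with `LocS` at `Z` and the `Z`-units. -/
structure Kil (p : ℕ) (Z : Set (HeightOneSpectrum (𝓞 F))) (f : Fˣ → ZMod p) : Prop where
  hom : Hom f
  loc : ∀ x, LocS p Z x → f x = 0
  unit : ∀ x ∈ Z.unit F, f x = 0

/-- `f` is a homomorphism which kills the elements which are local `p`-th powers at the `v ∈ Z`, `v ∤ p`, and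
the `Z`-units. -/
structure KilT (p : ℕ) (Z : Set (HeightOneSpectrum (𝓞 F))) (f : Fˣ → ZMod p) : Prop where
  hom : Hom f
  loc : ∀ x : Fˣ, (∀ v ∈ Z, v.valuation F (p : F) = 1 → LocPow p v (x : F)) → f x = 0
  unit : ∀ x ∈ Z.unit F, f x = 0

/-- The `Z`-units which are local `p`-th powers at the `v ∈ Z`, `v ∤ p`, are `p`-th powers. -/
def InjZ (p : ℕ) (F : Type) [Field F] [NumberField F] (Z : Set (HeightOneSpectrum (𝓞 F))) : Prop :=
  ∀ u ∈ Z.unit F, (∀ v ∈ Z, v.valuation F (p : F) = 1 → LocPow p v (u : F)) → Pw p u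

/-- The primes above `p`. -/
def abP (p : ℕ) (F : Type) [Field F] [NumberField F] : Set (HeightOneSpectrum (𝓞 F)) :=
  {v | v.valuation F (p : F) < 1}

end defs

/-- **X_HQ** (Herbrand quotient for a group of order `p`, `H¹ = 0`). `A` is a finitely generated abelian group,
`σ^p = 1`, every `a` with `N a = 0` is of the form `σ b - b` (`N = ∑_(i<p) σ^i`), `A₀` the group of the
invariants. Then `[A₀ : N A]^(p-1) p^(rk A) = p^(p rk A₀)`.

PROOF. Let `B = ker N = (σ - 1) A`. `p A₀ ⊆ N A ⊆ A₀` (`N a₀ = p a₀`), and `[A₀ : p A₀] = p^(rk A₀) |A₀[p]|`.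
`N a ∈ p A₀` iff `a ∈ A₀ + B`, so `N A/p A₀ ≅ A/(A₀ + B) ≅ B/(σ - 1) B` (by `σ - 1 : A → B`, onto, with kernel
`A₀`), and `rk B = rk A - rk A₀`. On `B` one has `∑_(i<p) σ^i = 0`. For an endomorphism `φ` of `B` (commuting with
`σ`) with finite kernel and cokernel let `q(φ) = [B : φ B]/|ker φ|`; `q(φ φ') = q(φ) q(φ')`. `q(p) = p^(rk B)`
(as above for `A₀`). On `B`, `p = ∏_(0<i<p) (1 - σ^i)` (the identity `p = ∏ (1 - X^i)` modulo `Φ_p(X)`; for
example in `ℤ[X]/Φ_p`, embedded in `ℂ`), `1 - σ^i = (1 - σ) u_i`, `u_i = 1 + σ + ... + σ^(i-1)`, and `u_i` is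
invertible on `B`: if `i j ≡ 1 mod p` then `1 - σ = 1 - (σ^i)^j = (1 - σ^i)(1 + σ^i + ...) `, that is
`u_i u'_i = 1` modulo `Φ_p` (`1 - X` is not a zero divisor modulo `Φ_p`). So `q(p) = q(1 - σ)^(p-1)`. And
`ker(1 - σ) = B ∩ A₀ = A₀[p]`. Hence `([B : (σ-1) B]/|A₀[p]|)^(p-1) = p^(rk B)`, and
`[A₀ : N A] = [A₀ : p A₀]/[N A : p A₀] = p^(rk A₀) |A₀[p]|/[B : (σ-1)B]`; take the power `p - 1`.

Another way (only finite groups): `A' = A/p^n A`... any proof will do. -/
def X_HQ : Prop :=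
  ∀ (p : ℕ) [Fact p.Prime] (A : Type) [AddCommGroup A] [Module.Finite ℤ A]
    (σ : AddMonoid.End A), σ ^ p = 1 →
    (∀ a : A, ∑ i ∈ Finset.range p, (σ ^ i) a = 0 → ∃ b, a = σ b - b) →
  ∀ A₀ NA : AddSubgroup A, (∀ a, a ∈ A₀ ↔ σ a = a) →
    (∀ a, a ∈ NA ↔ ∃ b, a = ∑ i ∈ Finset.range p, (σ ^ i) b) →
  NA.relIndex A₀ ^ (p - 1) * p ^ finrank ℤ A = p ^ (p * finrank ℤ A₀)

/-- **X_RKS** (the rank of the `Z`-units).

PROOF. `x ↦ (ord_v x)_(v ∈ Z)` is a homomorphism from the `Z`-units to `ℤ^Z` with kernel `(𝓞 F)ˣ` (elements with all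
the valuations `0`; see `Helper88.LE.unit_of_val`), of rank `Units.rank F`; the image contains `h ℤ^Z`, `h` the
class number (`v^h` is principal), so it has rank `|Z|`. The ranks add up. -/
def X_RKS : Prop :=
  ∀ (F : Type) [Field F] [NumberField F] (Z : Set (HeightOneSpectrum (𝓞 F))), Z.Finite →
    Module.Finite ℤ (Additive (Z.unit F)) ∧
      finrank ℤ (Additive (Z.unit F)) = Units.rank F + Z.ncard

/-- **X_H90** (Hilbert 90 for the `Z`-units). `E/F` is Galois with group generated by `σ`, unramified outside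
`Z`, all the divisors of `F` are principal outside `Z`.

PROOF. `u = σ(y)/y` with `y ∈ Eˣ` (Hilbert 90 for the cyclic extension `E/F`; or the additive form: in Mathlib
`groupCohomology.isMulCoboundary₁_of_isMulCocycle₁_of_aut_to_units`). For `W ∉ upZ E Z`,
`ord_W(σ y) = ord_W(y)`, that is `ord_(σ⁻¹ W)(y) = ord_W(y)`: so `ord_W(y)` depends only on the prime `v` of `F`
below `W` (the primes above `v` are conjugate, `P_UPR`); let it be `n(v)` for `v ∉ Z`, `n(v) = 0` for `v ∈ Z`,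
a function with finite support. Let `x ∈ Fˣ`, `ord_v(x) = n(v)` for `v ∉ Z`. As `E/F` is unramified
outside `Z`, `y/x` is a unit outside `upZ E Z`, and `σ(y/x)/(y/x) = u`. -/
def X_H90 : Prop :=
  ∀ (F E : Type) [Field F] [NumberField F] [Field E] [NumberField E] [Algebra F E] [IsGalois F E]
    (Z : Set (HeightOneSpectrum (𝓞 F))), UnrZ F E Z → PrZ F Z →
  ∀ σ : E ≃ₐ[F] E, (∀ g : E ≃ₐ[F] E, ∃ n : ℕ, g = σ ^ n) →
  ∀ u ∈ (upZ E Z).unit E, nrm F E u = 1 → ∃ y ∈ (upZ E Z).unit E, u = act σ y / y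

/-- **X_LCF** (the norm residue map at a tame prime which is not split). `E/F` is Galois of degree `p`, `v ∤ p`, `W`
above `v` with decomposition group not trivial.

PROOF. The decomposition group is `Gal(E/F)`, so `W` is the only prime above `v` and it is stable under
`Gal(E/F) = ⟨σ⟩`; `e f = p` (`Helper2.RL.ef_free`, or as in `RD.D_ORB`, `RS`). For `y ∈ Eˣ`,
`ord_v(N y) = f ord_W(y)` (`e ord_v(N y) = ord_W(N y) = p ord_W(y)`).
*Case `e = 1`*, `f = p`: `φ = ord_v mod p`. `LocPow p v x` implies `p ∣ ord_v(x)`.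
*Case `e = p`*, `f = 1`. Let `T ∈ Eˣ`, `ord_W(T) = 1`, `n = N(T)`, `ord_v(n) = 1`. As `f = 1` every `u ∈ E` with
`ord_W(u) ≥ 0` is congruent modulo `W` to an element of `𝓞_F`, so `σ u ≡ u mod W`. Let `G` be the group of the
`x ∈ Fˣ` with `LocPow p v (x n^i)` for some `i ∈ ℕ`. *`N(y) ∈ G`*: `y = T^j u` (`j ∈ ℤ`), `u` a unit at `W`,
`u ≡ c mod W`, `c ∈ 𝓞_F`, `N(u) ≡ c^p mod W`, so modulo `v`; `N(y) n^(-j) c^(-p) ≡ 1`. *`p` divides `N(v) - 1`*:
let `t = σ(T)/T`, a unit at `W`, `t ≡ c mod W`; `∏_i σ^i(t) = 1` gives `c^p ≡ 1`. If `c ≡ 1` then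
`σ T ≡ T mod W²`, so `σ^i T ≡ T mod W²` for all `i` and `Tr(T) ≡ p T mod W²`, `ord_W(Tr T) = 1` (`W ∤ p`),
but `Tr T ∈ F` has valuation divisible by `e = p`: contradiction. So `c` is an element of order `p` of the
residue field. Hence there is `g ∈ 𝓞_F ∖ v` which is not a `p`-th power modulo `v` (a generator of the residue
field). `g ∉ G` (`LocPow p v (g n^i)` implies `p ∣ i`, `p ∣ ord_v(n^i)`; write `n^i = (n^(i/p))^p`; and `g` would be
a `p`-th power modulo `v`); `g^p ∈ G`; every `x ∈ Fˣ` is in `g^j G`: multiply by a power of `n` to get a unit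
at `v`, which is congruent to a power of `g`. `Helper32.RDV.exists_theta` gives `φ : Fˣ → ZMod p`, a
homomorphism with kernel `G`, onto. -/
def X_LCF : Prop :=
  ∀ (p : ℕ) [Fact p.Prime] (F E : Type) [Field F] [NumberField F] [Field E] [NumberField E]
    [Algebra F E] [IsGalois F E], finrank F E = p →
  ∀ (v : HeightOneSpectrum (𝓞 F)) (W : HeightOneSpectrum (𝓞 E)), Above W v →
    v.valuation F (p : F) = 1 → ¬ FreeP F W →
  ∃ φ : Fˣ → ZMod p, Hom φ ∧ (∀ x : Fˣ, LocPow p v (x : F) → φ x = 0) ∧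
    (∀ y : Eˣ, φ (nrm F E y) = 0) ∧ ∃ x, φ x = 1

/-- **X_SPC** (the primes of `E` above `Z`). `E/F` is Galois of degree `p`; `N` is the set of the `v ∈ Z` which are
not split.

PROOF. `Gal(E/F)` acts transitively on the primes above `v` (`P_UPR`), the stabilizers have order `1` or `p`,
and conjugate primes have conjugate stabilizers: there are `p` primes above `v` if one of them (then all) is free,
and one otherwise. There is always a prime above `v`. Sum over `v ∈ Z`. -/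
def X_SPC : Prop :=
  ∀ (p : ℕ) [Fact p.Prime] (F E : Type) [Field F] [NumberField F] [Field E] [NumberField E]
    [Algebra F E] [IsGalois F E], finrank F E = p →
  (∀ (v : HeightOneSpectrum (𝓞 F)) (W W' : HeightOneSpectrum (𝓞 E)), Above W v → Above W' v →
    FreeP F W → FreeP F W') ∧
  ∀ Z : Set (HeightOneSpectrum (𝓞 F)), Z.Finite → (upZ E Z).Finite ∧
    (upZ E Z).ncard + (p - 1) * {v | v ∈ Z ∧ ∃ W : HeightOneSpectrum (𝓞 E), Above W v ∧
      ¬ FreeP F W}.ncard = p * Z.ncard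

/-- **X_FI** (tame first inequality). `E/F` is Galois of degree `p`, unramified outside `Z`, split above `p`; if
`p = 2` then `F` is totally complex. Then there is a functional `s ≠ 0` of tame local nature at `Z` which kills the
`Z`-units, the norms from `E`, and all the elements whose divisor outside `Z` consists of primes split in `E`.

PROOF (from `X_HQ`, `X_RKS`, `X_H90`, `X_LCF`, `X_SPC`). Let `N ⊆ Z` be the set of the non split primes,
`k = |N|`; they are not above `p`. For `v ∈ N` let `φ_v` be given by `X_LCF`. `Φ = (φ_v) : Fˣ → F_p^N` is onto: let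
`φ_v(x_v) = 1`; by weak approximation (`Helper32.RDV.weakApprox`) there is `x ∈ Fˣ` close to `x_v` at `v`
(`x/x_v ≡ 1 mod v`) and `x ≡ 1` at the other primes of `N`; then `φ_v(x) = 1`, `φ_{v'}(x) = 0`.
(1) *For every finite set `D` of primes `∉ Z` split in `E` the image of the `Z ∪ D`-units by `Φ` is not
`F_p^N`.* Let `Y = Z ∪ D`, `A` the group of the `upZ E Y`-units of `E` (additive), `σ` a generator of
`Gal(E/F)` (order `p`). `A₀` = the `Y`-units of `F` (elements of `F` in `A`; `E/F`: `x ∈ F` is a unit at `v` iff at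
`W`). `X_H90` (for `Y`) gives the hypothesis of `X_HQ`. Ranks: `rk A = Units.rank E + |upZ E Y|`,
`rk A₀ = Units.rank F + |Y|` (`X_RKS`); `Units.rank E + 1 = p (Units.rank F + 1)`, because the infinite places
are unramified (`p` odd: `IsUnramifiedAtInfinitePlaces` of a Galois extension of odd degree; `p = 2`: `F` is
totally complex) and `card_infinitePlace`; `|upZ E Y| = p |Y| - (p - 1) k` (`X_SPC`; the primes of `D` are split).
So `p rk A₀ - rk A = (p - 1)(k - 1)` (in `ℤ`), and `X_HQ` gives `k ≥ 1` and `[A₀ : N A] = p^(k-1)`. `Φ` kills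
`N A`, so the image of `A₀` has at most `p^(k-1) < p^k` elements.
(2) So `R_D = {m ∈ F_p^N : ∑ m_v φ_v = 0 on the Z ∪ D-units} ≠ 0` (a proper subspace of `F_p^N` is contained in
the kernel of a nonzero linear form), and `R_D' ⊆ R_D` if `D ⊆ D'`. Choose `D` with `|R_D|` minimal, `m ∈ R_D`,
`m ≠ 0`, `s = ∑ m_v φ_v`. Then `m ∈ R_D'` for all finite sets `D'` of split primes (`R_(D ∪ D') ⊆ R_D`, equal by
minimality, `⊆ R_D'`). `s ≠ 0` since `Φ` is onto. If the divisor of `x` outside `Z` consists of split primes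
then `x` is a `Z ∪ D'`-unit, and `s(x) = 0`. -/
def X_FI : Prop :=
  ∀ (p : ℕ) [Fact p.Prime] (F E : Type) [Field F] [NumberField F] [Field E] [NumberField E]
    [Algebra F E] [IsGalois F E], finrank F E = p → (p = 2 → IsTotallyComplex F) →
  ∀ Z : Set (HeightOneSpectrum (𝓞 F)), Z.Finite → abP p F ⊆ Z → UnrZ F E Z → PrZ F Z →
    (∀ W : HeightOneSpectrum (𝓞 E), W.valuation E (p : E) < 1 → FreeP F W) →
  ∃ s : Fˣ → ZMod p, KilT p Z s ∧ (∃ x, s x ≠ 0) ∧ (∀ y : Eˣ, s (nrm F E y) = 0) ∧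
    ∀ x : Fˣ, (∀ v ∉ Z, ordv v (x : F) ≠ 0 → v ∈ SplZ E Z) → s x = 0

/-- **X_DK** (density of the common zeros). `f_1, ..., f_d` are linearly independent functionals of local nature
at `Z` which kill the `Z`-units. The primes at which all of them vanish have density at most `p^(-d)`.

PROOF (from `B_CHR`, `B_PRC`, `A1_FIX`, `RS.S_PSM`). Let `𝔪 = p³ ∏_(v ∈ Z) v`; `α ≡ 1 mod 𝔪` implies `LocS`
(`y = 1`). For `a ∈ F_p^d`, `a ≠ 0`, let `f_a = ∑ a_i f_i ≠ 0` and `χ_a = chI 𝔪 ψ₁ (idl Z f_a)`, `ψ₁ ≠ 1`: a ray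
class character (`B_CHR`, `B_PRC`), not trivial: `f_a(x) ≠ 0`, the divisor of `x` outside `Z` is the difference of
those of `I₁, I₂`, products of primes `∉ Z`, so prime to `𝔪` (`B_CHR`). So by `A1_FIX`
`∑_w Re χ_a(w) N(w)^(-s) ≤ C_a`; for `a = 0` the sum over all `w ∉ Z` is at most `log(1/(s-1)) + C` (`S_PSM`). Sum
over `a ∈ F_p^d`: for `w ∉ Z`, `∑_a χ_a(w) = ∑_a ψ₁(∑ a_i f_i(w))` is `p^d` if all `f_i(w) = 0` and `0` otherwise
(`f_i(w) = idl Z f_i w`; the primes `w ∉ Z` are prime to `𝔪`), for `w ∈ Z` the terms `a ≠ 0` are `0`. -/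
def X_DK : Prop :=
  ∀ (p : ℕ) [Fact p.Prime] (F : Type) [Field F] [NumberField F] [IsTotallyComplex F]
    (Z : Set (HeightOneSpectrum (𝓞 F))), Z.Finite → abP p F ⊆ Z → PrZ F Z →
  ∀ (d : ℕ) (f : Fin d → Fˣ → ZMod p), (∀ i, Kil p Z (f i)) →
    (∀ c : Fin d → ZMod p, (∀ x, ∑ i, c i * f i x = 0) → c = 0) →
  ∃ C : ℝ, ∀ s : ℝ, 1 < s → s ≤ 2 →
    pz {w | w ∉ Z ∧ ∀ i, Van Z (f i) w} s ≤ 1 / (p : ℝ) ^ d * Real.log (1 / (s - 1)) + C

/-- **X_SPD** (density of the split primes). `E/F` is Galois, unramified outside `Z`.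

PROOF (from `B_TRS`, `RS.S_PSM`). `B_TRS` with `K = F`, `F = E`, `S = Z`, `D = ∅`, `g = 2` and
`V = SplZ E Z` (the condition on `g` is vacuous): `2 ∑_W N(W)^(-s) ≤ 2 [E : F] pz V s + C`, and
`∑_W N(W)^(-s) ≥ log(1/(s-1)) - C'` (`S_PSM` for `E`). -/
def X_SPD : Prop :=
  ∀ (F E : Type) [Field F] [NumberField F] [Field E] [NumberField E] [Algebra F E] [IsGalois F E]
    (Z : Set (HeightOneSpectrum (𝓞 F))), Z.Finite → UnrZ F E Z →
  ∃ C : ℝ, ∀ s : ℝ, 1 < s → s ≤ 2 →
    1 / (finrank F E : ℝ) * Real.log (1 / (s - 1)) - C ≤ pz (SplZ E Z) s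

/-- **X_DN** (at most one functional). `E/F` is Galois of degree `p`.

PROOF (from `X_DK`, `X_SPD`). If `f_1, f_2` are linearly independent then by `X_DK` (`d = 2`), `SplZ E Z` is
contained in the set of common zeros, so `(1/p) log(1/(s-1)) - C ≤ (1/p²) log(1/(s-1)) + C'` for all
`s ∈ (1, 2]`, a contradiction for `s → 1`. -/
def X_DN : Prop :=
  ∀ (p : ℕ) [Fact p.Prime] (F E : Type) [Field F] [NumberField F] [IsTotallyComplex F] [Field E]
    [NumberField E] [Algebra F E] [IsGalois F E], finrank F E = p →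
  ∀ Z : Set (HeightOneSpectrum (𝓞 F)), Z.Finite → abP p F ⊆ Z → UnrZ F E Z → PrZ F Z →
  ∀ f₁ f₂ : Fˣ → ZMod p, Kil p Z f₁ → Kil p Z f₂ → (∀ w ∈ SplZ E Z, Van Z f₁ w) →
    (∀ w ∈ SplZ E Z, Van Z f₂ w) → (∃ x, f₁ x ≠ 0) →
  ∃ c : ZMod p, ∀ x, f₂ x = c * f₁ x

/-- **X_KLB** (Kummer extensions, lower bound; `RSP.SP_KUM` is the upper bound). Also: if a prime `v ∤ p` has a
free prime `W` above it in a Galois extension `E/F` which contains a `p`-th root of `b ∈ F`, `ord_v(b) = 0`,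
then `b` is locally a `p`-th power at `v`.

PROOF. *Second claim.* `W/v` is free, so `e = f = 1` (`e f` is the order of the decomposition group):
`𝓞_F → 𝓞_E/W` is onto. `b = r^p`, `ord_W(r) = 0`, `r⁻¹ ≡ c mod W`, `c ∈ 𝓞_F`, so `b c^p ≡ 1 mod W`, and modulo `v`.
*First claim.* `E = AdjoinRoot (X^p - b)`, a field of degree `p` over `F`, Galois (`ε ∈ F`). Let `Z` be the set
of the primes above `p` or ramified in `E` or with `ord_v(b) ≠ 0` (finite). By `X_SPD` and the second claim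
`pz {LocPow p v b} ≥ pz (SplZ E Z) ≥ (1/p) log(1/(s-1)) - C`. -/
def X_KLB : Prop :=
  (∀ (p : ℕ) [Fact p.Prime] (F E : Type) [Field F] [NumberField F] [Field E] [NumberField E]
    [Algebra F E] [IsGalois F E] (v : HeightOneSpectrum (𝓞 F)) (W : HeightOneSpectrum (𝓞 E)),
    Above W v → FreeP F W → v.valuation F (p : F) = 1 → ∀ (b : F) (r : E), r ^ p = algebraMap F E b →
    b ≠ 0 → ordv v b = 0 → LocPow p v b) ∧
  ∀ (p : ℕ) [Fact p.Prime] (F : Type) [Field F] [NumberField F] (ε b : F), IsPrimitiveRoot ε p →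
    b ≠ 0 → (¬ ∃ y : F, y ^ p = b) →
  ∃ C : ℝ, ∀ s : ℝ, 1 < s → s ≤ 2 → 1 / (p : ℝ) * Real.log (1 / (s - 1)) - C ≤
    pz {v : HeightOneSpectrum (𝓞 F) | v.valuation F (p : F) = 1 ∧ LocPow p v b} s

/-- **X_DB** (a functional which vanishes at the primes split in `F(b^(1/p))` and at those split in `E₂`). Then `b`
is a `p`-th power in `E₂`.

PROOF (from `X_DK`, `X_KLB`, `B_TRS`, `RSP.SP_KUM`, `RS.S_PSM`). Suppose not; then `b` is not a `p`-th power in `F`.
Let `A` be the set of the `w ∉ Z` with `LocPow p w b` and `B = SplZ E₂ Z`; `f` vanishes at `A ∪ B`, so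
`pz(A ∪ B) ≤ (1/p) log(1/(s-1)) + C` (`X_DK`, `d = 1`). `pz A ≥ (1/p) log(1/(s-1)) - C` by `X_KLB` (`Z` is finite).
`B_TRS` for `E₂/F`, `g(W) = 2` if `W ∤ p` and not `LocPow p W b`, `g(W) = 0` otherwise, `D = ∅`, `V = B ∖ A`:
if `W` is free above `w ∉ Z`, `w ∉ V`, then `w ∈ B`, so `w ∈ A`, `LocPow p w b` and `LocPow p W b`, `g(W) = 0`. So
`2 ∑_(W : not LocPow) N(W)^(-s) ≤ 2 [E₂ : F] pz(B ∖ A) + C`; the left side is at least
`2 (1 - 1/p) log(1/(s-1)) - C` by `S_PSM` and `SP_KUM` for `E₂` (finitely many `W` are above `p`). So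
`pz(A ∪ B) = pz A + pz(B ∖ A) ≥ (1/p + (1 - 1/p)/[E₂ : F]) log(1/(s-1)) - C`: contradiction for `s → 1`. -/
def X_DB : Prop :=
  ∀ (p : ℕ) [Fact p.Prime] (F E₂ : Type) [Field F] [NumberField F] [IsTotallyComplex F]
    [Field E₂] [NumberField E₂] [Algebra F E₂] [IsGalois F E₂] (ε : F), IsPrimitiveRoot ε p →
  ∀ Z : Set (HeightOneSpectrum (𝓞 F)), Z.Finite → abP p F ⊆ Z → UnrZ F E₂ Z → PrZ F Z →
  ∀ f : Fˣ → ZMod p, Kil p Z f → (∃ x, f x ≠ 0) →
  ∀ b : Fˣ, (∀ w ∉ Z, LocPow p w (b : F) → Van Z f w) → (∀ w ∈ SplZ E₂ Z, Van Z f w) →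
  ∃ y : E₂, y ^ p = algebraMap F E₂ (b : F)

/-- **X_FIK** (the functional of a Kummer extension which is split above `p`). `b` is a `Z`-unit, not a `p`-th power,
with `LocS` at the primes above `p`.

PROOF (from `X_FI`, `RSP.SP_SPL`). `E = AdjoinRoot (X^p - b)`, a field of degree `p` over `F`, Galois since
`ε ∈ F`, `r^p = b`, `σ r = ε r`. *Unramified outside `Z`:* let `v ∉ Z`, `W` above `v`: `v ∤ p`, `b` is a unit at `v`. If
`e > 1` the inertia group is `⟨σ⟩` (`e f` = order of the decomposition group), `σ r ≡ r mod W`, so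
`(ε - 1) r ≡ 0 mod W`, but `ε - 1` (a divisor of `p`) and `r` are units at `W`; see also `RP.S_RAM`. *Split above
`p`:* let `W ∣ p`, `b y^p ≡ 1 mod p³` at the prime `v` below `W` (`y ∈ Fˣ`), `z = r y`, `z^p - 1 = b y^p - 1`,
`∏_(i<p) (z - ε^i) = z^p - 1` has `W`-valuation at most that of `p³`, so some `z - ε^i` is divisible by
`(1 - ε)²` at `W` (the valuation of `p³` is `3(p-1)` times that of `1 - ε`, `p` factors, `3(p-1) ≥ p + 1` for
`p ≥ 2`, so one factor has valuation `> that of 1 - ε`); exactly one `i`, as `ε^i - ε^j` has the valuation of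
`1 - ε` for `i ≠ j`. `σ z = ε z`: if `W` were stable under `σ`, `z - ε^i` and `σ⁻¹(z - ε^i) = ε⁻¹(z - ε^(i+1))`
would have the same valuation, contradiction. So `σ` (and any nontrivial power) does not fix `W`: `FreeP F W`.
`X_FI` gives `s`. If `w ∉ Z` and `LocPow p w b` then `w` is split in `E` (`SP_SPL`: `p` primes above `w`; with
`X_SPC`, or directly they are free since they are `p = [E : F]` conjugate primes), so `s` vanishes at `w`. -/
def X_FIK : Prop :=
  ∀ (p : ℕ) [Fact p.Prime] (F : Type) [Field F] [NumberField F] [IsTotallyComplex F] (ε : F),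
    IsPrimitiveRoot ε p →
  ∀ Z : Set (HeightOneSpectrum (𝓞 F)), Z.Finite → abP p F ⊆ Z → PrZ F Z →
  ∀ b ∈ Z.unit F, ¬ Pw p b → LocS p (abP p F) b →
  ∃ s : Fˣ → ZMod p, KilT p Z s ∧ (∃ x, s x ≠ 0) ∧ ∀ w ∉ Z, LocPow p w (b : F) → Van Z s w

/-- **X_LIX** (upper bound for the local classes above `p`). A finite set of elements of `Fˣ` whose quotients do not
satisfy `LocS` at the primes above `p` has at most `p^(2 a + n)` elements, `a` the number of primes above `p`,
`n = [F : ℚ]`; here `ε ∈ F` is not needed.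

PROOF. Let `Π = abP p F` (finite), `e_v = ord_v(p)`, `f_v` the residue degree, `∑ e_v f_v = n`. Let
`N_v = 4 p e_v` (large) and `G = ∏_(v ∈ Π) (𝓞_F/v^(N_v))ˣ`, a finite abelian group, so `|G/G^p| = |G[p]|`.
(1) `|G[p]| ≤ ∏ p^(1 + e_v f_v)`. It is enough to bound the `x ∈ 𝓞_F/v^(N_v)` with `x^p = 1`. If `x, y` are two
solutions then `z = x/y` is one, `∏_(i<p)(z - ζ^i)`, `ζ` a primitive `p`-th root of unity in an extension `F'`
of `F`; to avoid `F'`: let `t = ord_v(z - 1)` (in `[0, N_v]`). Write `z = 1 + h`; `z^p - 1 = h^p + p h (unit or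
0...)`: `h (h^(p-1) + p(1 + ...)) ≡ 0 mod v^(N_v)`, where `... ` is divisible by `v` if `h` is. `h ≡ 0 mod v` since
`x ↦ x^p` is injective on the residue field. If `(p-1) ord(h) > e_v` then `ord(h^(p-1) + p(...)) = e_v`, so
`ord(h) ≥ N_v - e_v`. If `(p-1) ord(h) < e_v` then `ord(h^p) = p ord(h) < N_v`: impossible. So `ord(h) ≥ N_v - e_v`
or `(p-1) ord(h) = e_v`. The solutions `x` modulo `v^(N_v - e_v)` form a group `H`, two distinct ones satisfy
`(p-1) ord(x - y) = e_v =: (p-1) c`. So `H` injects in `(1 + v^c)/(1 + v^(c+1))`, and if `h ≡ h₀ π^c` with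
`h₀ ≢ 0` modulo `v` then `h₀^(p-1) ≡ -p/π^(e_v)`-type equation: `h₀^p ≡ u h₀` has at most `p` solutions in the
residue field. So `|H| ≤ p`, and there are at most `p |v^(N_v - e_v)/v^(N_v)| = p · p^(e_v f_v)` solutions.
(If `F ∋ ε` — the only case which is needed, you may add this hypothesis — simply: `∏_(i<p) (x - ε^i) ≡ 0 mod
v^(N_v)`; let `i₀` be such that `ord(x - ε^(i₀)) = t` is maximal; the other factors have
`ord(x - ε^i) ≤ ord(ε^i - ε^(i₀)) = e_v/(p-1)`, so `t ≥ N_v - e_v`: `x ≡ ε^(i₀) mod v^(N_v - e_v)`: at most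
`p p^(e_v f_v)` solutions.)
(2) The homomorphism `Fˣ → F_p^Π`, `x ↦ (ord_v x)_v` has kernel `X₁`; every element of `X₁` is, up to a `p`-th power
of `Fˣ`, a unit at the `v ∈ Π` (weak approximation), so it has a class in `G/G^p`, well defined up to `p`-th
powers (the quotient of two choices is the `p`-th power of a unit at `Π`). If the class is trivial: `x y^p ≡ 1
mod v^(N_v)` for all `v ∈ Π` (`y` a unit at `Π`, weak approximation or CRT), so `LocS`, as `N_v > 3 e_v`. So the number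
of classes is at most `p^a |G/G^p| ≤ p^a p^(a + n)`. -/
def X_LIX : Prop :=
  ∀ (p : ℕ) [Fact p.Prime] (F : Type) [Field F] [NumberField F] (ε : F), IsPrimitiveRoot ε p →
  ∀ X : Finset Fˣ, (∀ x ∈ X, ∀ y ∈ X, x ≠ y → ¬ LocS p (abP p F) (x / y)) →
    X.card ≤ p ^ (2 * (abP p F).ncard + finrank ℚ F)

/-- **X_UNL** (the `Z`-units modulo `p`-th powers). `ε ∈ F`, `Z` finite: there are `p^(1 + rank + |Z|)` `Z`-units
which are pairwise incongruent modulo `p`-th powers.

PROOF (from `X_RKS`). `A = Z.unit F` is `ℤ^ρ × μ`, `ρ = Units.rank F + |Z|`, `μ` the group of the roots of unity of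
`F`, finite cyclic (a finite subgroup of `Fˣ`) of order divisible by `p`: `A/A^p` has `p^(ρ + 1)` elements. If
`x/y = z^p`, `x, y ∈ A`, `z ∈ Fˣ`, then `z ∈ A`. For a totally complex `F`, `Units.rank F + 1 = n/2`. -/
def X_UNL : Prop :=
  ∀ (p : ℕ) [Fact p.Prime] (F : Type) [Field F] [NumberField F] (ε : F), IsPrimitiveRoot ε p →
  ∀ Z : Set (HeightOneSpectrum (𝓞 F)), Z.Finite →
  ∃ X : Finset Fˣ, X.card = p ^ (Units.rank F + 1 + Z.ncard) ∧ (∀ x ∈ X, x ∈ Z.unit F) ∧
    ∀ x ∈ X, ∀ y ∈ X, x ≠ y → ¬ Pw p (x / y)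

/-- **X_CNT** (existence theorem by counting). Every functional `f ≠ 0` of tame local nature at `Z` which kills the
`Z`-units vanishes at the primes `w ∉ Z` split in a Kummer extension `F(b^(1/p))`, `b` a `Z`-unit.

PROOF (from `X_FIK`, `X_DB`, `X_DN`, `X_KLB`, `X_LIX`, `X_UNL`). `n = [F : ℚ]`, `a = |abP p F|`, `z = |Z|`,
`d = n/2 + z = Units.rank F + 1 + z`. Let `A'` be the group of the `f` with `KilT p Z f` and `B'` the group of the
`b ∈ Z.unit F` with `LocS p (abP p F) b`, modulo `p`-th powers.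
(1) `|B'| ≥ p^(d - 2a - n)`: the `p^d` elements of `X_UNL` have at most `p^(2a+n)` classes modulo `LocS` at
`abP p F` (`X_LIX`), so one class contains `≥ p^(d-2a-n)` of them; divide them by one of them.
(2) `|A'| ≤ p^(2(z-a) - d)`: for `v ∈ Z`, `v ∤ p`, the elements of `Fˣ` modulo `LocPow p v` form a group of order
`p²` (`ord_v mod p`, and the residue field: `p ∣ N(v) - 1` as `ε ∈ F`), so the group `Q` of `Fˣ` modulo
`{x : LocPow p v x for v ∈ Z, v ∤ p}` has order `≤ p^(2(z-a))`; by `InjZ` the `Z`-units (modulo `p`-th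
powers, `≥ p^d` elements) inject in `Q`; `A'` is the group of the homomorphisms `Q/image → F_p`.
(3) So `|A'| ≤ |B'|` (`2(z-a) - d = d - 2a - n`). For `b ∈ B'`, `b ≠ 1` let `s_b ∈ A'` be given by `X_FIK`. If
`s_b = c s_(b')` then `f = s_b` vanishes at the `w ∉ Z` with `LocPow p w b` and at those with `LocPow p w b'`, in
particular at those split in `E' = AdjoinRoot (X^p - b')` (`X_KLB`, first claim; `E'` is unramified outside `Z`,
see `X_FIK`), so `b` is a `p`-th power in `E'` (`X_DB`), `b = y^p`, `σ y = ε^j y`, `y/r'^j ∈ F`: `b ∈ b'^j F^(×p)`. So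
the map from the lines of `B'` to the lines of `A'` is injective, hence (`|A'| ≤ |B'|`) bijective. -/
def X_CNT : Prop :=
  ∀ (p : ℕ) [Fact p.Prime] (F : Type) [Field F] [NumberField F] [IsTotallyComplex F] (ε : F),
    IsPrimitiveRoot ε p →
  ∀ Z : Set (HeightOneSpectrum (𝓞 F)), Z.Finite → abP p F ⊆ Z → PrZ F Z → InjZ p F Z →
  ∀ f : Fˣ → ZMod p, KilT p Z f → (∃ x, f x ≠ 0) →
  ∃ b ∈ Z.unit F, ¬ Pw p b ∧ ∀ w ∉ Z, LocPow p w (b : F) → Van Z f w

/-- **X_LIN** (the line). `E₂/F` is cyclic of degree a power of `p`, `> 1`, `F ∋ ε`, split above `p`, unramified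
outside `Z`, the divisors of `F` and `E₂` are principal outside `Z`, `E₁/F` the subextension of degree `p`. The
functionals `f` on `F` with `Kil p Z f` which kill the norms from `E₂` kill all the primes split in `E₁`.

PROOF (from `X_CNT`, `X_DB`, `X_KLB`). (1) `KilT p Z f`: let `x ∈ Fˣ` with `LocPow p v x` for all `v ∈ Z`, `v ∤ p`. Choose
for every `v ∣ p` a prime `W_v` of `E₂` above `v` (free, so of degree 1 and unramified: the completions of `F` at `v`
and of `E₂` at `W_v` are the same), and by weak approximation (`Helper32.RDV.weakApprox`) `y ∈ E₂ˣ` close to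
`x` at the `W_v` (`v ∣ p`) and close to `1` at the other primes above `p` and at the primes above the other
`v ∈ Z`. `N(y) = ∏ g(y)` is close to `x` at `v ∣ p` (at the prime `W_v`: `g(y)` is close to `x` for `g = 1` and to `1`
otherwise), and to `1` at the other `v ∈ Z`. So `x/N(y)` is close to `1` at the `v ∣ p`, and `LocPow` at the other
`v ∈ Z`; choose by weak approximation one `c ∈ Fˣ` with `x/N(y) c^p ≡ 1` at all `v ∈ Z` (`≡ 1 mod p³` at `v ∣ p`):
`LocS p Z (x/N(y))`, and `f(x) = f(N y) = 0`. (2) `f` vanishes at the `w ∈ SplZ E₂ Z`: `W` free above `w`, `y ∈ E₂ˣ`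
with divisor `W` outside `upZ E₂ Z`; `N(y)` has divisor `w` outside `Z` (`f = 1`), the same as `x`, so
`f(x) = f(N y) = 0`. (3) If `f = 0` there is nothing to prove. Otherwise let `b` be given by `X_CNT`. By `X_DB`
`b = y^p` with `y ∈ E₂`, `y ∉ F`; so `F(y) ⊆ E₂` is an extension of degree `p` of `F`, Galois, and it is equal to
`E₁` since `E₂/F` is cyclic: `b` is a `p`-th power in `E₁`. If `w ∉ Z` is split in `E₁` then `LocPow p w b`
(`X_KLB`), so `f` vanishes at `w`. -/
def X_LIN : Prop :=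
  ∀ (p : ℕ) [Fact p.Prime] (F E₁ E₂ : Type) [Field F] [NumberField F] [IsTotallyComplex F]
    [Field E₁] [NumberField E₁] [Field E₂] [NumberField E₂] [Algebra F E₁] [Algebra F E₂]
    [Algebra E₁ E₂] [IsScalarTower F E₁ E₂] [IsGalois F E₁] [IsGalois F E₂]
    [IsCyclic (E₂ ≃ₐ[F] E₂)] (ε : F),
    IsPrimitiveRoot ε p → finrank F E₁ = p → (∃ l : ℕ, finrank F E₂ = p ^ l) →
  ∀ Z : Set (HeightOneSpectrum (𝓞 F)), Z.Finite → abP p F ⊆ Z → UnrZ F E₂ Z → PrZ F Z →
    InjZ p F Z → PrZ E₂ (upZ E₂ Z) →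
    (∀ W : HeightOneSpectrum (𝓞 E₂), W.valuation E₂ (p : E₂) < 1 → FreeP F W) →
  ∀ f : Fˣ → ZMod p, Kil p Z f → (∀ y : E₂ˣ, f (nrm F E₂ y) = 0) →
  ∀ w ∈ SplZ E₁ Z, Van Z f w

end Pool.Agent.Helper76.PB
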